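import Pool.Agent.Helper65.HC.Reduction

/-!
# From the static lemma to the hard-core Caro-Wei inequality
-/

namespace Pool.Agent.Helper65.HC

open Finset Classical

universe u

variable {V : Type u} [Fintype V] (G : SimpleGraph V)

/-- if all `L v ≤ T` then `μ - S = P_T + a(T) (log Z - B)` -/
lemma F_eq {T : ℝ} {w : V → ℝ} (hL : ∀ v, Lw G w v ≤ T) :
    mu G w - ∑ v, w v * gg (Lw G w v) = PT G T w + aa T * Wf G w := by
  have h := PT_eq G T w
  have h1 : ∑ v, w v * gg (min (Lw G w v) T) = ∑ v, w v * gg (Lw G w v) :=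
    sum_congr rfl fun v _ => by rw [min_eq_left (hL v)]
  have h2 : BT G T w = Binf G w := by
    rw [BT, Binf, pot, pot]
    exact sum_congr rfl fun v _ => by rw [pT, min_eq_left (hL v)]
  rw [h1, RT, h2] at h
  rw [Wf]
  linarith

lemma F_nonneg_of_PT {T : ℝ} (hT : 0 < T) {w : V → ℝ} (hw : ∀ v, 0 ≤ w v)
    (hL : ∀ v, Lw G w v ≤ T) (h : 0 ≤ PT G T w) :
    ∑ v, w v * gg (Lw G w v) ≤ mu G w := by
  have h1 := F_eq G hL
  have h2 : 0 ≤ aa T * Wf G w := mul_nonneg (aa_pos hT).le (Wf_nonneg G hw)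
  linarith

lemma Lw_const (t : ℝ) (v : V) : Lw G (fun _ => t) v = ((G.degree v : ℝ) + 1) * t := by
  rw [Lw, sum_const, nsmul_eq_mul]
  congr 1
  have h : cn G v = insert v (G.neighborFinset v) := by
    ext u
    rw [mem_cn, mem_insert, SimpleGraph.mem_neighborFinset]
  rw [h, card_insert_of_notMem (by simp), SimpleGraph.card_neighborFinset_eq_degree]
  push_cast
  ring

lemma mu_const (t : ℝ) : mu G (fun _ => t) =
      (∑ I ∈ (Finset.univ : Finset (Finset V)).filter
            (fun I : Finset V => G.IsIndepSet (↑I : Set V)),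
          ((Finset.card I : ℕ) : ℝ) * t ^ (Finset.card I)) /
      (∑ I ∈ (Finset.univ : Finset (Finset V)).filter
            (fun I : Finset V => G.IsIndepSet (↑I : Set V)),
          t ^ (Finset.card I)) := by
  rw [mu, Nn, Z, indep]
  simp only [prod_const]

lemma ineq_of_weighted {t : ℝ} (h : ∑ v, t * gg (Lw G (fun _ => t) v) ≤ mu G (fun _ => t)) :
      (∑ v : V, t / (1 + ((G.degree v : ℝ) + 1) * t)) ≤
        (∑ I ∈ (Finset.univ : Finset (Finset V)).filter
              (fun I : Finset V => G.IsIndepSet (↑I : Set V)),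
            ((Finset.card I : ℕ) : ℝ) * t ^ (Finset.card I)) /
        (∑ I ∈ (Finset.univ : Finset (Finset V)).filter
              (fun I : Finset V => G.IsIndepSet (↑I : Set V)),
            t ^ (Finset.card I)) := by
  rw [← mu_const]
  refine le_trans (le_of_eq (sum_congr rfl fun v _ => ?_)) h
  rw [gg, Lw_const]
  ring

/-- **Reduction of the hard-core Caro-Wei inequality to the static lemma.** -/
theorem caroWei_of_static {T0 : ℝ} (hT0 : 0 < T0)
    (base : ∀ w y : V → ℝ, Crit G T0 w y → False)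
    (main : ∀ (T : ℝ) (w y m : V → ℝ), T0 < T → Crit G T w y →
      (∑ v, w v * y v < ∑ v, w v * gg (min (Lw G w v) T)) → BoxMax G T w m →
      (∃ v, 0 < m v ∧ T ≤ Lw G m v) → False)
    {w : V → ℝ} (hw : ∀ v, 0 ≤ w v) :
    ∑ v, w v * gg (Lw G w v) ≤ mu G w := by
  obtain ⟨B, hB⟩ := (Set.finite_range (Lw G w)).bddAbove
  have hB' : ∀ v, Lw G w v ≤ max T0 B := fun v => (hB ⟨v, rfl⟩).trans (le_max_right _ _)
  have h := PT_nonneg G hT0 base main (w0 := w) (Tm := max T0 B) (max T0 B)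
    ⟨le_max_left _ _, le_rfl⟩ w ⟨fun v => hw v, le_rfl⟩
  exact F_nonneg_of_PT G (lt_max_of_lt_left hT0) hw hB' h

/-- **General reduction**: the static lemma may use `R_T ≤ 0` for `T > T0`. -/
theorem caroWei_of_gen {T0 : ℝ} (hT0 : 0 < T0)
    (base : ∀ w y : V → ℝ, Crit G T0 w y → False)
    (main : ∀ (T : ℝ) (w y : V → ℝ), T0 < T → Crit G T w y → RT G T w ≤ 0 →
      (∑ v, w v * y v < ∑ v, w v * gg (min (Lw G w v) T)) → False)
    {w : V → ℝ} (hw : ∀ v, 0 ≤ w v) :
    ∑ v, w v * gg (Lw G w v) ≤ mu G w := by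
  obtain ⟨B, hB⟩ := (Set.finite_range (Lw G w)).bddAbove
  have hB' : ∀ v, Lw G w v ≤ max T0 B := fun v => (hB ⟨v, rfl⟩).trans (le_max_right _ _)
  have h := PT_nonneg_gen G hT0 base main (w0 := w) (Tm := max T0 B) (max T0 B)
    ⟨le_max_left _ _, le_rfl⟩ w ⟨fun v => hw v, le_rfl⟩
  exact F_nonneg_of_PT G (lt_max_of_lt_left hT0) hw hB' h

/-- The restricted version: only the base lemma, for graphs with all `L v ≤ T0`. -/
theorem caroWei_of_base {T0 : ℝ} (hT0 : 0 < T0)
    (base : ∀ w y : V → ℝ, Crit G T0 w y → False)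
    {w : V → ℝ} (hw : ∀ v, 0 ≤ w v) (hL : ∀ v, Lw G w v ≤ T0) :
    ∑ v, w v * gg (Lw G w v) ≤ mu G w := by
  have h := PT_nonneg_single G hT0 base (w0 := w) w ⟨fun v => hw v, le_rfl⟩
  exact F_nonneg_of_PT G hT0 hw hL h

end Pool.Agent.Helper65.HC
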