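import Pool.Agent.Helper65.HC.Step1
import Pool.Agent.Helper25.HC.Step2

/-!
# Assembly: the hard-core Caro-Wei inequality from (J3) and (J5)
-/

set_option autoImplicit false

namespace Pool.Agent.Helper65.HC

open Finset Classical Pool.Agent.Helper25.HC

/-- (J3) at threshold `T` -/
def J3 (T : ℝ) : Prop := ∀ L z : ℝ, 0 < L → L < T → 6 * gg T < z → z ≤ 1 →
  ph T * (z * ss T L - tt T L) ≤ CT T z * uu L

/-- the scalar form of (C*) -/
def CStar (T L y b : ℝ) : Prop :=
  CT T y + b * (1 - y / (6 * gg T)) + y * (cT T * (L - T)) - ss T L < 0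

/-- (J5) at threshold `T` -/
def J5 (T : ℝ) : Prop := ∀ Lv yv bv Lx yx bx Y : ℝ,
  0 < Lv → 0 < yv → yv ≤ 1 → yv ≤ 6 * gg T → 0 ≤ bv → CStar T Lv yv bv →
  0 < Lx → 6 * gg T < yx → yx ≤ 1 → 0 ≤ bx → CStar T Lx yx bx →
  0 < Y → Y < gg T → CT T Y < 0 → Y ≤ Lam T Lv yv →
  0 ≤ Bvx T Lv yv Lx yx + yv * max (bx - bv) 0

universe u

variable {V : Type u} [Fintype V] (G : SimpleGraph V)

/-- the static lemma in the presence of a hub with small `e_u` -/
theorem main_case {T : ℝ} (hT : 0 < T) (j3 : J3 T) (j5 : J5 T) {w y : V → ℝ}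
    (hc : Crit G T w y) (hub : ∃ u, 0 < w u ∧ T ≤ Lw G w u ∧ ee G T w u < ph T) : False := by
  obtain ⟨u, hu, hhub, he⟩ := hub
  have hg := gg_pos hT.le
  have hyu : y u < gg T := hub_small hT hc j3 hu hhub he
  have hLpos : ∀ x, 0 < w x → 0 < Lw G w x := fun x hx =>
    hx.trans_le (le_Lw G hc.w_nonneg (self_mem_cn G x))
  -- the class of small vertices
  obtain ⟨v, hv, hmax⟩ := (univ.filter (fun v => 0 < w v ∧ y v ≤ 6 * gg T)).exists_max_image
    (fun v => Lam T (Lw G w v) (y v)) ⟨u, by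
      rw [mem_filter]
      exact ⟨mem_univ u, hu, by linarith⟩⟩
  rw [mem_filter] at hv
  obtain ⟨-, hwv, hyv⟩ := hv
  -- the hub satisfies `C_T(y_u) < 0`
  have hCTu : CT T (y u) < 0 := by
    have h1 := C_star hT hc hu
    rw [ss_hub hhub] at h1
    have h2 : 0 ≤ y u * (cT T * (Lw G w u - T)) :=
      mul_nonneg (hc.y_pos u).le (mul_nonneg (cT_pos hT).le (by linarith))
    have h3 : 0 ≤ bb G T w u * (1 - y u / (6 * gg T)) := by
      refine mul_nonneg (bb_nonneg hc.w_nonneg u) ?_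
      rw [sub_nonneg, div_le_one (by positivity)]
      linarith
    linarith
  have hLamu : y u ≤ Lam T (Lw G w v) (y v) := by
    have h1 := hmax u (by rw [mem_filter]; exact ⟨mem_univ u, hu, by linarith⟩)
    rwa [Lam_hub hhub] at h1
  have h := step3 G hT hc hwv
  have hγ0 : 0 < gg (min (Lw G w v) T) := gg_pos (lt_min (hLpos v hwv) hT).le
  have h1 := mul_nonneg (aa_pos hT).le (D_nonneg (hc.y_pos v) hγ0)
  have h4 : 0 ≤ gg T * (aa T - 2 * gg T) * (y v * max (Lw G w v - T) 0) := by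
    have h5 := two_gg_le_aa hT
    exact mul_nonneg (mul_nonneg hg.le (by linarith))
      (mul_nonneg (hc.y_pos v).le (le_max_right _ _))
  -- the gain
  set X := (cn G v).filter (fun x => 6 * gg T < y x ∧ bb G T w v ≤ bb G T w x) with hX
  have hXs : X ⊆ cn G v := filter_subset _ _
  have h5 := mul_le_mul_of_nonneg_left (RR_ge hT hc.w_nonneg v hXs) (hc.y_pos v).le
  have h6 : 0 ≤ (∑ x ∈ cn G v, w x * Bvx T (Lw G w v) (y v) (Lw G w x) (y x)) +
      y v * ∑ x ∈ X, w x * (bb G T w x - bb G T w v) := by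
    rw [hX, sum_filter, mul_sum, ← sum_add_distrib]
    refine sum_nonneg fun x _ => ?_
    rcases (hc.w_nonneg x).eq_or_lt with h0 | h0
    · rw [← h0]; simp
    by_cases hx : y x ≤ 6 * gg T
    · rw [if_neg (fun hcon => absurd hcon.1 (not_lt.2 hx)), mul_zero, add_zero]
      refine mul_nonneg h0.le (B_nonneg hT (hLpos v hwv) (hLpos x h0) hyv ?_)
      exact hmax x (by rw [mem_filter]; exact ⟨mem_univ x, h0, hx⟩)
    · push Not at hx
      have h7 := j5 (Lw G w v) (y v) (bb G T w v) (Lw G w x) (y x) (bb G T w x) (y u)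
        (hLpos v hwv) (hc.y_pos v) (hc.y_le v) hyv (bb_nonneg hc.w_nonneg v) (C_star hT hc hwv)
        (hLpos x h0) hx (hc.y_le x) (bb_nonneg hc.w_nonneg x) (C_star hT hc h0)
        (hc.y_pos u) hyu hCTu hLamu
      by_cases hb : bb G T w v ≤ bb G T w x
      · rw [if_pos ⟨hx, hb⟩]
        rw [max_eq_left (by linarith)] at h7
        have := mul_nonneg h0.le h7
        linarith
      · rw [if_neg (fun hcon => hb hcon.2), mul_zero, add_zero]
        push Not at hb
        rw [max_eq_right (by linarith)] at h7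
        exact mul_nonneg h0.le (by linarith)
  linarith

/-- **The weighted hard-core Caro-Wei inequality from (J3) and (J5).** -/
theorem caroWei_of_J {T0 : ℝ} (hT0 : 0 < T0) (hT5 : T0 ≤ 5) (j3 : ∀ T, T0 < T → J3 T)
    (j5 : ∀ T, T0 < T → J5 T) {w : V → ℝ} (hw : ∀ v, 0 ≤ w v) :
    ∑ v, w v * gg (Lw G w v) ≤ mu G w :=
  caroWei_of_hub G hT0 (fun _ _ hc => base_case G hT0 hT5 hc)
    (fun _ _ _ hT hc hub => main_case G (hT0.trans hT) (j3 _ hT) (j5 _ hT) hc hub) hw

/-- the frozen statement from (J3) and (J5) -/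
theorem frozen_of_J {T0 : ℝ} (hT0 : 0 < T0) (hT5 : T0 ≤ 5) (j3 : ∀ T, T0 < T → J3 T)
    (j5 : ∀ T, T0 < T → J5 T) :
    ∀ (V : Type) [Fintype V] (G : SimpleGraph V) (t : ℝ), 0 < t →
      (∑ v : V, t / (1 + ((G.degree v : ℝ) + 1) * t)) ≤
        (∑ I ∈ (Finset.univ : Finset (Finset V)).filter
              (fun I : Finset V => G.IsIndepSet (↑I : Set V)),
            ((Finset.card I : ℕ) : ℝ) * t ^ (Finset.card I)) /
        (∑ I ∈ (Finset.univ : Finset (Finset V)).filter
              (fun I : Finset V => G.IsIndepSet (↑I : Set V)),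
            t ^ (Finset.card I)) := by
  intro V _ G t ht
  exact ineq_of_weighted G (caroWei_of_J G hT0 hT5 j3 j5 (w := fun _ => t) fun _ => ht.le)

end Pool.Agent.Helper65.HC
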