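import Pool.Agent.Helper65.HC.Assembly2
import Pool.Agent.Helper25.HC.J3
import Pool.Agent.Helper25.HC.Base10

/-!
# The frozen statement from (J5) with threshold `3 g(T)` for `T > 10`
-/

set_option autoImplicit false

namespace Pool.Agent.Helper65.HC

open Finset Classical Pool.Agent.Helper25.HC

/-- **S11853 from `J53`.** -/
theorem frozen_of_base10 (j53 : ∀ T, 10 < T → J53 T) :
    ∀ (V : Type) [Fintype V] (G : SimpleGraph V) (t : ℝ), 0 < t →
      (∑ v : V, t / (1 + ((G.degree v : ℝ) + 1) * t)) ≤
        (∑ I ∈ (Finset.univ : Finset (Finset V)).filter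
              (fun I : Finset V => G.IsIndepSet (↑I : Set V)),
            ((Finset.card I : ℕ) : ℝ) * t ^ (Finset.card I)) /
        (∑ I ∈ (Finset.univ : Finset (Finset V)).filter
              (fun I : Finset V => G.IsIndepSet (↑I : Set V)),
            t ^ (Finset.card I)) := by
  refine frozen_of_base_J (T0 := 10) (by norm_num) (fun V _ G w y hc => base_ten hc) ?_ ?_
  · intro T hT L z hL hLT hz hz1
    exact j3 hL hLT hz hz1
  · intro T hT
    exact ⟨3, by norm_num, by norm_num, J5t_of_J53 (j53 T hT)⟩

end Pool.Agent.Helper65.HC
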