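import Pool.Agent.Helper65.HC.Assembly

/-!
# Assembly with a general threshold `k g(T)`, `1 ≤ k ≤ 6`, and a general base threshold `T0`
-/

set_option autoImplicit false

namespace Pool.Agent.Helper65.HC

open Finset Classical Pool.Agent.Helper25.HC

/-- (J5) at threshold `T` with the class of small vertices `y ≤ k g(T)` -/
def J5t (k T : ℝ) : Prop := ∀ Lv yv bv Lx yx bx Y : ℝ,
  0 < Lv → 0 < yv → yv ≤ k * gg T → 0 ≤ bv → CStar T Lv yv bv →
  0 < Lx → k * gg T < yx → yx ≤ 1 → 0 ≤ bx → CStar T Lx yx bx →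
  0 < Y → Y < gg T → CT T Y < 0 → Y ≤ Lam T Lv yv →
  0 ≤ Bvx T Lv yv Lx yx + yv * max (bx - bv) 0

/-- the version with threshold `3 g(T)` -/
def J53 (T : ℝ) : Prop := ∀ Lv yv bv Lx yx bx Y : ℝ,
  0 < Lv → 0 < yv → yv ≤ 3 * gg T → 0 ≤ bv → CStar T Lv yv bv →
  0 < Lx → 3 * gg T < yx → yx ≤ 1 → 0 ≤ bx → CStar T Lx yx bx →
  0 < Y → Y < gg T → CT T Y < 0 → Y ≤ Lam T Lv yv →
  0 ≤ Bvx T Lv yv Lx yx + yv * max (bx - bv) 0

lemma J5t_of_J53 {T : ℝ} (h : J53 T) : J5t 3 T := h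

lemma J5t_of_J5 {T : ℝ} (hT : 5 ≤ T) (h : J5 T) : J5t 6 T := by
  intro Lv yv bv Lx yx bx Y h1 h2 h3 h4 h5 h6 h7 h8 h9 h10 h11 h12 h13 h14
  refine h Lv yv bv Lx yx bx Y h1 h2 (h3.trans ?_) h3 h4 h5 h6 h7 h8 h9 h10 h11 h12 h13 h14
  unfold gg
  rw [mul_one_div, div_le_one (by linarith)]
  linarith

universe u

variable {V : Type u} [Fintype V] (G : SimpleGraph V)

/-- the static lemma in the presence of a hub with small `e_u`, threshold `k g(T)` -/
theorem main_case_t {T k : ℝ} (hT : 0 < T) (hk1 : 1 ≤ k) (hk6 : k ≤ 6) (j3 : J3 T)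
    (j5 : J5t k T) {w y : V → ℝ}
    (hc : Crit G T w y) (hub : ∃ u, 0 < w u ∧ T ≤ Lw G w u ∧ ee G T w u < ph T) : False := by
  obtain ⟨u, hu, hhub, he⟩ := hub
  have hg := gg_pos hT.le
  have hyu : y u < gg T := hub_small hT hc j3 hu hhub he
  have hyuk : y u ≤ k * gg T := hyu.le.trans (by nlinarith)
  have hLpos : ∀ x, 0 < w x → 0 < Lw G w x := fun x hx =>
    hx.trans_le (le_Lw G hc.w_nonneg (self_mem_cn G x))
  -- the class of small vertices
  obtain ⟨v, hv, hmax⟩ := (univ.filter (fun v => 0 < w v ∧ y v ≤ k * gg T)).exists_max_image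
    (fun v => Lam T (Lw G w v) (y v)) ⟨u, by
      rw [mem_filter]
      exact ⟨mem_univ u, hu, hyuk⟩⟩
  rw [mem_filter] at hv
  obtain ⟨-, hwv, hyv⟩ := hv
  have hyv6 : y v ≤ 6 * gg T := hyv.trans (by nlinarith)
  -- the hub satisfies `C_T(y_u) < 0`
  have hCTu : CT T (y u) < 0 := by
    have h1 := C_star hT hc hu
    rw [ss_hub hhub] at h1
    have h2 : 0 ≤ y u * (cT T * (Lw G w u - T)) :=
      mul_nonneg (hc.y_pos u).le (mul_nonneg (cT_pos hT).le (by linarith))
    have h3 : 0 ≤ bb G T w u * (1 - y u / (6 * gg T)) := by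
      refine mul_nonneg (bb_nonneg hc.w_nonneg u) ?_
      rw [sub_nonneg, div_le_one (by positivity)]
      linarith
    linarith
  have hLamu : y u ≤ Lam T (Lw G w v) (y v) := by
    have h1 := hmax u (by rw [mem_filter]; exact ⟨mem_univ u, hu, hyuk⟩)
    rwa [Lam_hub hhub] at h1
  have h := step3 G hT hc hwv
  have hγ0 : 0 < gg (min (Lw G w v) T) := gg_pos (lt_min (hLpos v hwv) hT).le
  have h1 := mul_nonneg (aa_pos hT).le (D_nonneg (hc.y_pos v) hγ0)
  have h4 : 0 ≤ gg T * (aa T - 2 * gg T) * (y v * max (Lw G w v - T) 0) := by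
    have h5 := two_gg_le_aa hT
    exact mul_nonneg (mul_nonneg hg.le (by linarith))
      (mul_nonneg (hc.y_pos v).le (le_max_right _ _))
  -- the gain
  set X := (cn G v).filter (fun x => k * gg T < y x ∧ bb G T w v ≤ bb G T w x) with hX
  have hXs : X ⊆ cn G v := filter_subset _ _
  have h5 := mul_le_mul_of_nonneg_left (RR_ge hT hc.w_nonneg v hXs) (hc.y_pos v).le
  have h6 : 0 ≤ (∑ x ∈ cn G v, w x * Bvx T (Lw G w v) (y v) (Lw G w x) (y x)) +
      y v * ∑ x ∈ X, w x * (bb G T w x - bb G T w v) := by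
    rw [hX, sum_filter, mul_sum, ← sum_add_distrib]
    refine sum_nonneg fun x _ => ?_
    rcases (hc.w_nonneg x).eq_or_lt with h0 | h0
    · rw [← h0]; simp
    by_cases hx : y x ≤ k * gg T
    · rw [if_neg (fun hcon => absurd hcon.1 (not_lt.2 hx)), mul_zero, add_zero]
      refine mul_nonneg h0.le (B_nonneg hT (hLpos v hwv) (hLpos x h0) hyv6 ?_)
      exact hmax x (by rw [mem_filter]; exact ⟨mem_univ x, h0, hx⟩)
    · push Not at hx
      have h7 := j5 (Lw G w v) (y v) (bb G T w v) (Lw G w x) (y x) (bb G T w x) (y u)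
        (hLpos v hwv) (hc.y_pos v) hyv (bb_nonneg hc.w_nonneg v) (C_star hT hc hwv)
        (hLpos x h0) hx (hc.y_le x) (bb_nonneg hc.w_nonneg x) (C_star hT hc h0)
        (hc.y_pos u) hyu hCTu hLamu
      by_cases hb : bb G T w v ≤ bb G T w x
      · rw [if_pos ⟨hx, hb⟩]
        rw [max_eq_left (by linarith)] at h7
        have := mul_nonneg h0.le h7
        linarith
      · rw [if_neg (fun hcon => hb hcon.2), mul_zero, add_zero]
        push Not at hb
        rw [max_eq_right (by linarith)] at h7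
        exact mul_nonneg h0.le (by linarith)
  linarith

/-- **The weighted inequality from a base case at `T0` and (J3), (J5) for `T > T0`.** -/
theorem caroWei_of_base_J {T0 : ℝ} (hT0 : 0 < T0)
    (base : ∀ w y : V → ℝ, Crit G T0 w y → False) (j3 : ∀ T, T0 < T → J3 T)
    (j5 : ∀ T, T0 < T → ∃ k, 1 ≤ k ∧ k ≤ 6 ∧ J5t k T) {w : V → ℝ} (hw : ∀ v, 0 ≤ w v) :
    ∑ v, w v * gg (Lw G w v) ≤ mu G w := by
  refine caroWei_of_hub G hT0 base ?_ hw
  intro T w y hT hc hub
  obtain ⟨k, hk1, hk6, h5⟩ := j5 T hT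
  exact main_case_t G (hT0.trans hT) hk1 hk6 (j3 T hT) h5 hc hub

/-- **The frozen statement from a base case at `T0` and (J3), (J5) for `T > T0`.** -/
theorem frozen_of_base_J {T0 : ℝ} (hT0 : 0 < T0)
    (base : ∀ (V : Type) [Fintype V] (G : SimpleGraph V) (w y : V → ℝ), Crit G T0 w y → False)
    (j3 : ∀ T, T0 < T → J3 T) (j5 : ∀ T, T0 < T → ∃ k, 1 ≤ k ∧ k ≤ 6 ∧ J5t k T) :
    ∀ (V : Type) [Fintype V] (G : SimpleGraph V) (t : ℝ), 0 < t →
      (∑ v : V, t / (1 + ((G.degree v : ℝ) + 1) * t)) ≤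
        (∑ I ∈ (Finset.univ : Finset (Finset V)).filter
              (fun I : Finset V => G.IsIndepSet (↑I : Set V)),
            ((Finset.card I : ℕ) : ℝ) * t ^ (Finset.card I)) /
        (∑ I ∈ (Finset.univ : Finset (Finset V)).filter
              (fun I : Finset V => G.IsIndepSet (↑I : Set V)),
            t ^ (Finset.card I)) := by
  intro V _ G t ht
  exact ineq_of_weighted G
    (caroWei_of_base_J G hT0 (base V G) j3 j5 (w := fun _ => t) fun _ => ht.le)

end Pool.Agent.Helper65.HC
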