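import Mathlib

/-!
# The weighted hard-core model on a fixed finite graph

Weights `w v ≥ 0`; deleting a vertex means giving it weight zero.
-/

namespace Pool.Agent.Helper65.HC

open Finset Classical

universe u

variable {V : Type u} [Fintype V] (G : SimpleGraph V)

/-- the independent sets of `G` -/
noncomputable def indep : Finset (Finset V) :=
  (univ : Finset (Finset V)).filter (fun I : Finset V => G.IsIndepSet (↑I : Set V))

/-- closed neighbourhood -/
noncomputable def cn (v : V) : Finset V := univ.filter (fun u => u = v ∨ G.Adj v u)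

/-- partition function -/
noncomputable def Z (w : V → ℝ) : ℝ := ∑ I ∈ indep G, ∏ v ∈ I, w v

/-- unnormalised mean size -/
noncomputable def Nn (w : V → ℝ) : ℝ := ∑ I ∈ indep G, (I.card : ℝ) * ∏ v ∈ I, w v

/-- mean size -/
noncomputable def mu (w : V → ℝ) : ℝ := Nn G w / Z G w

/-- the weights after deletion of `N[v]` -/
noncomputable def kill (v : V) (w : V → ℝ) : V → ℝ := fun u => if u ∈ cn G v then 0 else w u

/-- probability that `N[v]` is free -/
noncomputable def qq (w : V → ℝ) (v : V) : ℝ := Z G (kill G v w) / Z G w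

/-- weight of the closed neighbourhood -/
noncomputable def Lw (w : V → ℝ) (v : V) : ℝ := ∑ u ∈ cn G v, w u

lemma mem_cn {v u : V} : u ∈ cn G v ↔ u = v ∨ G.Adj v u := by simp [cn]

lemma self_mem_cn (v : V) : v ∈ cn G v := by simp [cn]

lemma mem_cn_comm {v u : V} : u ∈ cn G v ↔ v ∈ cn G u := by
  simp only [mem_cn, G.adj_comm, eq_comm]

lemma mem_indep {I : Finset V} : I ∈ indep G ↔ ∀ u ∈ I, ∀ v ∈ I, ¬ G.Adj u v := by
  rw [indep, mem_filter, SimpleGraph.isIndepSet_iff]
  constructor
  · intro h u hu v hv huv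
    exact h.2 (mem_coe.2 hu) (mem_coe.2 hv) huv.ne huv
  · intro h
    refine ⟨mem_univ _, ?_⟩
    intro u hu v hv _ huv
    exact h u (mem_coe.1 hu) v (mem_coe.1 hv) huv

lemma empty_mem_indep : (∅ : Finset V) ∈ indep G := by rw [mem_indep]; simp

/-- Insertion of a vertex. -/
lemma sum_insert_bij (v : V) (F : Finset V → ℝ) :
    ∑ J ∈ (indep G).filter (fun J => v ∈ J), F J =
      ∑ I ∈ (indep G).filter (fun I => Disjoint I (cn G v)), F (insert v I) := by
  symm
  refine Finset.sum_bij' (fun I _ => insert v I) (fun J _ => J.erase v) ?_ ?_ ?_ ?_ ?_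
  · intro I hI
    rw [mem_filter, mem_indep] at hI
    rw [mem_filter, mem_indep]
    refine ⟨?_, mem_insert_self _ _⟩
    have hd := disjoint_left.1 hI.2
    intro a ha b hb hab
    rw [mem_insert] at ha hb
    rcases ha with rfl | ha
    · rcases hb with rfl | hb
      · exact G.irrefl hab
      · exact hd hb ((mem_cn G).2 (Or.inr hab))
    · rcases hb with rfl | hb
      · exact hd ha ((mem_cn G).2 (Or.inr hab.symm))
      · exact hI.1 a ha b hb hab
  · intro J hJ
    rw [mem_filter, mem_indep] at hJ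
    rw [mem_filter, mem_indep]
    refine ⟨fun a ha b hb => hJ.1 a (mem_of_mem_erase ha) b (mem_of_mem_erase hb), ?_⟩
    rw [disjoint_left]
    intro u hu h
    rw [mem_cn] at h
    rcases h with h | h
    · exact (ne_of_mem_erase hu) h
    · exact hJ.1 v hJ.2 u (mem_of_mem_erase hu) h
  · intro I hI
    rw [mem_filter] at hI
    exact erase_insert (fun h => (disjoint_left.1 hI.2) h (self_mem_cn G v))
  · intro J hJ
    rw [mem_filter] at hJ
    exact insert_erase hJ.2
  · intro I _
    rfl

lemma prod_kill (v : V) (w : V → ℝ) (I : Finset V) :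
    ∏ u ∈ I, kill G v w u = if Disjoint I (cn G v) then ∏ u ∈ I, w u else 0 := by
  split_ifs with h
  · refine prod_congr rfl fun u hu => ?_
    rw [kill, if_neg]
    exact disjoint_left.1 h hu
  · rw [not_disjoint_iff] at h
    obtain ⟨u, hu, hu2⟩ := h
    exact prod_eq_zero hu (by rw [kill, if_pos hu2])

lemma Z_kill (v : V) (w : V → ℝ) :
    Z G (kill G v w) = ∑ I ∈ (indep G).filter (fun I => Disjoint I (cn G v)), ∏ u ∈ I, w u := by
  rw [Z, sum_filter]
  exact sum_congr rfl fun I _ => prod_kill G v w I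

lemma Nn_kill (v : V) (w : V → ℝ) :
    Nn G (kill G v w) =
      ∑ I ∈ (indep G).filter (fun I => Disjoint I (cn G v)), (I.card : ℝ) * ∏ u ∈ I, w u := by
  rw [Nn, sum_filter]
  refine sum_congr rfl fun I _ => ?_
  rw [prod_kill]
  split_ifs <;> simp

/-- the part of the partition function without `v` -/
noncomputable def Z0 (v : V) (w : V → ℝ) : ℝ :=
  ∑ I ∈ (indep G).filter (fun I => v ∉ I), ∏ u ∈ I, w u

noncomputable def N0 (v : V) (w : V → ℝ) : ℝ :=
  ∑ I ∈ (indep G).filter (fun I => v ∉ I), (I.card : ℝ) * ∏ u ∈ I, w u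

lemma occ (v : V) (w : V → ℝ) :
    ∑ J ∈ (indep G).filter (fun J => v ∈ J), ∏ u ∈ J, w u = w v * Z G (kill G v w) := by
  rw [sum_insert_bij, Z_kill, mul_sum]
  refine sum_congr rfl fun I hI => ?_
  rw [mem_filter] at hI
  rw [prod_insert (fun h => (disjoint_left.1 hI.2) h (self_mem_cn G v))]

lemma Z_split (v : V) (w : V → ℝ) : Z G w = Z0 G v w + w v * Z G (kill G v w) := by
  rw [← occ, Z0, Z, add_comm]
  exact (sum_filter_add_sum_filter_not _ _ _).symm

lemma Nn_split (v : V) (w : V → ℝ) :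
    Nn G w = N0 G v w + w v * (Nn G (kill G v w) + Z G (kill G v w)) := by
  have h : ∑ J ∈ (indep G).filter (fun J => v ∈ J), (J.card : ℝ) * ∏ u ∈ J, w u =
      w v * (Nn G (kill G v w) + Z G (kill G v w)) := by
    rw [sum_insert_bij, Z_kill, Nn_kill, ← sum_add_distrib, mul_sum]
    refine sum_congr rfl fun I hI => ?_
    rw [mem_filter] at hI
    have hv : v ∉ I := fun h => (disjoint_left.1 hI.2) h (self_mem_cn G v)
    rw [prod_insert hv, card_insert_of_notMem hv]
    push_cast
    ring
  rw [← h, N0, Nn, add_comm]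
  exact (sum_filter_add_sum_filter_not _ _ _).symm

lemma kill_update (v : V) (w : V → ℝ) (x : ℝ) :
    kill G v (Function.update w v x) = kill G v w := by
  funext u
  rw [kill, kill]
  split_ifs with h
  · rfl
  · rw [Function.update_of_ne]
    rintro rfl
    exact h (self_mem_cn G u)

lemma Z0_update (v : V) (w : V → ℝ) (x : ℝ) : Z0 G v (Function.update w v x) = Z0 G v w := by
  rw [Z0, Z0]
  refine sum_congr rfl fun I hI => prod_congr rfl fun u hu => ?_
  rw [Function.update_of_ne]
  rintro rfl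
  exact (mem_filter.1 hI).2 hu

lemma N0_update (v : V) (w : V → ℝ) (x : ℝ) : N0 G v (Function.update w v x) = N0 G v w := by
  rw [N0, N0]
  refine sum_congr rfl fun I hI => ?_
  congr 1
  refine prod_congr rfl fun u hu => ?_
  rw [Function.update_of_ne]
  rintro rfl
  exact (mem_filter.1 hI).2 hu

lemma Z_update (v : V) (w : V → ℝ) (x : ℝ) :
    Z G (Function.update w v x) = Z0 G v w + x * Z G (kill G v w) := by
  rw [Z_split G v, Z0_update, kill_update, Function.update_self]

lemma Nn_update (v : V) (w : V → ℝ) (x : ℝ) :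
    Nn G (Function.update w v x) =
      N0 G v w + x * (Nn G (kill G v w) + Z G (kill G v w)) := by
  rw [Nn_split G v, N0_update, kill_update, Function.update_self]

section nonneg

variable {w : V → ℝ}

lemma kill_nonneg (hw : ∀ v, 0 ≤ w v) (v : V) : ∀ u, 0 ≤ kill G v w u := by
  intro u
  rw [kill]
  split_ifs
  · exact le_rfl
  · exact hw u

lemma kill_le (hw : ∀ v, 0 ≤ w v) (v : V) : ∀ u, kill G v w u ≤ w u := by
  intro u
  rw [kill]
  split_ifs
  · exact hw u
  · exact le_rfl

lemma one_le_Z (hw : ∀ v, 0 ≤ w v) : 1 ≤ Z G w := by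
  rw [Z]
  have h := single_le_sum (f := fun I : Finset V => ∏ v ∈ I, w v)
    (fun I _ => prod_nonneg fun v _ => hw v) (empty_mem_indep G)
  simpa using h

lemma Z_pos (hw : ∀ v, 0 ≤ w v) : 0 < Z G w := lt_of_lt_of_le one_pos (one_le_Z G hw)

lemma Nn_nonneg (hw : ∀ v, 0 ≤ w v) : 0 ≤ Nn G w :=
  sum_nonneg fun _ _ => mul_nonneg (Nat.cast_nonneg _) (prod_nonneg fun v _ => hw v)

lemma Z_mono {w' : V → ℝ} (hw : ∀ v, 0 ≤ w v) (h : ∀ v, w v ≤ w' v) : Z G w ≤ Z G w' :=
  sum_le_sum fun _ _ => prod_le_prod (fun v _ => hw v) (fun v _ => h v)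

lemma qq_pos (hw : ∀ v, 0 ≤ w v) (v : V) : 0 < qq G w v :=
  div_pos (Z_pos G (kill_nonneg G hw v)) (Z_pos G hw)

lemma qq_le_one (hw : ∀ v, 0 ≤ w v) (v : V) : qq G w v ≤ 1 := by
  rw [qq, div_le_one (Z_pos G hw)]
  exact Z_mono G (kill_nonneg G hw v) (kill_le G hw v)

lemma mu_eq (w : V → ℝ) : mu G w = ∑ v, w v * qq G w v := by
  have h : Nn G w = ∑ v, w v * Z G (kill G v w) := by
    simp_rw [← occ, sum_filter]
    rw [sum_comm, Nn]
    refine sum_congr rfl fun I _ => ?_
    rw [← sum_filter, sum_const, nsmul_eq_mul]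
    congr 2
    congr 1
    ext v
    simp
  rw [mu, h, sum_div]
  exact sum_congr rfl fun v _ => by rw [qq, mul_div_assoc]

/-- union bound -/
lemma L1 (hw : ∀ v, 0 ≤ w v) (v : V) :
    1 ≤ qq G w v + ∑ u ∈ cn G v, w u * qq G w u := by
  have h : Z G w ≤ Z G (kill G v w) + ∑ u ∈ cn G v, w u * Z G (kill G u w) := by
    simp_rw [← occ]
    rw [Z_kill]
    simp_rw [sum_filter]
    rw [sum_comm, ← sum_add_distrib, Z]
    refine sum_le_sum fun I _ => ?_
    have hp : 0 ≤ ∏ u ∈ I, w u := prod_nonneg fun v _ => hw v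
    split_ifs with hd
    · have : 0 ≤ ∑ u ∈ cn G v, if u ∈ I then ∏ u ∈ I, w u else 0 :=
        sum_nonneg fun u _ => by split_ifs <;> simp [hp]
      linarith
    · rw [not_disjoint_iff] at hd
      obtain ⟨x, hx, hx2⟩ := hd
      have h3 := single_le_sum (f := fun u => if u ∈ I then ∏ u ∈ I, w u else 0)
        (fun u _ => by split_ifs <;> simp [hp]) hx2
      simp only [hx, if_true] at h3
      linarith
  have hZ := Z_pos G hw
  have e : qq G w v + ∑ u ∈ cn G v, w u * qq G w u =
      (Z G (kill G v w) + ∑ u ∈ cn G v, w u * Z G (kill G u w)) / Z G w := by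
    rw [add_div, sum_div, qq]
    congr 1
    exact sum_congr rfl fun u _ => by rw [qq, mul_div_assoc]
  rw [e, le_div_iff₀ hZ, one_mul]
  exact h

/-- disjointness of three events -/
lemma L2 (hw : ∀ v, 0 ≤ w v) {v x : V} (hvx : G.Adj v x) :
    (1 + w v) * qq G w v + w x * qq G w x ≤ 1 := by
  have h : Z G (kill G v w) + w v * Z G (kill G v w) + w x * Z G (kill G x w) ≤ Z G w := by
    rw [← occ G v, ← occ G x, Z_kill]
    simp_rw [sum_filter]
    rw [← sum_add_distrib, ← sum_add_distrib, Z]
    refine sum_le_sum fun I hI => ?_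
    have hp : 0 ≤ ∏ u ∈ I, w u := prod_nonneg fun v _ => hw v
    rw [mem_indep] at hI
    by_cases hd : Disjoint I (cn G v)
    · have h1 : v ∉ I := fun h => (disjoint_left.1 hd) h (self_mem_cn G v)
      have h2 : x ∉ I := fun h => (disjoint_left.1 hd) h ((mem_cn G).2 (Or.inr hvx))
      simp [hd, h1, h2]
    · by_cases h1 : v ∈ I
      · have h2 : x ∉ I := fun h => hI v h1 x h hvx
        simp [hd, h1, h2]
      · by_cases h2 : x ∈ I <;> simp [hd, h1, h2, hp]
  have hZ := Z_pos G hw
  have e : (1 + w v) * qq G w v + w x * qq G w x =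
      (Z G (kill G v w) + w v * Z G (kill G v w) + w x * Z G (kill G x w)) / Z G w := by
    rw [qq, qq]
    ring
  rw [e, div_le_one hZ]
  exact h

end nonneg

/-! ### derivatives -/

lemma hasDerivAt_Z (v : V) (w : V → ℝ) (x : ℝ) :
    HasDerivAt (fun x => Z G (Function.update w v x)) (Z G (kill G v w)) x := by
  simp_rw [Z_update]
  simpa using ((hasDerivAt_id x).mul_const (Z G (kill G v w))).const_add (Z0 G v w)

lemma hasDerivAt_Nn (v : V) (w : V → ℝ) (x : ℝ) :
    HasDerivAt (fun x => Nn G (Function.update w v x))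
      (Nn G (kill G v w) + Z G (kill G v w)) x := by
  simp_rw [Nn_update]
  simpa using ((hasDerivAt_id x).mul_const (Nn G (kill G v w) + Z G (kill G v w))).const_add
    (N0 G v w)

lemma hasDerivAt_logZ {w : V → ℝ} (hw : ∀ v, 0 ≤ w v) (v : V) :
    HasDerivAt (fun x => Real.log (Z G (Function.update w v x))) (qq G w v) (w v) := by
  have h := (hasDerivAt_Z G v w (w v)).log (by
    rw [Function.update_eq_self]
    exact (Z_pos G hw).ne')
  rwa [Function.update_eq_self] at h

lemma hasDerivAt_mu {w : V → ℝ} (hw : ∀ v, 0 ≤ w v) (v : V) :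
    HasDerivAt (fun x => mu G (Function.update w v x))
      (qq G w v * (1 + mu G (kill G v w) - mu G w)) (w v) := by
  have hZ := Z_pos G hw
  have hZk := Z_pos G (kill_nonneg G hw v)
  have h := (hasDerivAt_Nn G v w (w v)).div (hasDerivAt_Z G v w (w v)) (by
    rw [Function.update_eq_self]
    exact hZ.ne')
  rw [Function.update_eq_self] at h
  refine h.congr_deriv ?_
  rw [qq, mu, mu]
  field_simp
  ring

/-! ### continuity -/

lemma continuous_Z : Continuous (Z G) := by
  unfold Z
  fun_prop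

lemma continuous_Nn : Continuous (Nn G) := by
  unfold Nn
  fun_prop

lemma continuous_Lw (v : V) : Continuous (fun w : V → ℝ => Lw G w v) := by
  unfold Lw
  fun_prop

lemma Lw_nonneg {w : V → ℝ} (hw : ∀ v, 0 ≤ w v) (v : V) : 0 ≤ Lw G w v :=
  sum_nonneg fun u _ => hw u

lemma le_Lw {w : V → ℝ} (hw : ∀ v, 0 ≤ w v) {v x : V} (hx : x ∈ cn G v) : w x ≤ Lw G w v :=
  single_le_sum (fun u _ => hw u) hx

lemma Lw_mono {w w' : V → ℝ} (h : ∀ v, w v ≤ w' v) (v : V) : Lw G w v ≤ Lw G w' v :=
  sum_le_sum fun u _ => h u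

/-- strict monotonicity of `Z` -/
lemma Z_strict {w w' : V → ℝ} (hw : ∀ v, 0 ≤ w v) (h : ∀ v, w v ≤ w' v)
    (he : Z G w' ≤ Z G w) : w = w' := by
  funext v
  by_contra hne
  have hlt : w v < w' v := lt_of_le_of_ne (h v) hne
  have h1 : Z G (Function.update w v (w' v)) ≤ Z G w' := by
    refine Z_mono G ?_ ?_
    · intro x
      by_cases hx : x = v
      · subst hx
        rw [Function.update_self]
        exact (hw x).trans (h x)
      · rw [Function.update_of_ne hx]
        exact hw x
    · intro x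
      by_cases hx : x = v
      · subst hx
        rw [Function.update_self]
      · rw [Function.update_of_ne hx]
        exact h x
  rw [Z_update] at h1
  have h2 := Z_split G v w
  have h3 := Z_pos G (kill_nonneg G hw v)
  nlinarith

end Pool.Agent.Helper65.HC
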