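import Mathlib

/-!
# One variable functions for the weighted hard-core model
-/

namespace Pool.Agent.Helper65.HC

open Set

/-- `g(L) = 1/(1+L)` -/
noncomputable def gg (L : ℝ) : ℝ := 1 / (1 + L)

/-- `log (1+L) - L/(1+L)` -/
noncomputable def hl (L : ℝ) : ℝ := Real.log (1 + L) - L / (1 + L)

/-- `φ(L) = log (1+L) / L` -/
noncomputable def ph (L : ℝ) : ℝ := if L = 0 then 1 else Real.log (1 + L) / L

/-- `u(L) = -φ'(L)` -/
noncomputable def uu (L : ℝ) : ℝ := hl L / L ^ 2

/-- `a(L) = g² / u` -/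
noncomputable def aa (L : ℝ) : ℝ := (L / (1 + L)) ^ 2 / hl L

lemma gg_pos {L : ℝ} (h : 0 ≤ L) : 0 < gg L := by unfold gg; positivity

lemma gg_le_one {L : ℝ} (h : 0 ≤ L) : gg L ≤ 1 := by
  unfold gg
  rw [div_le_one (by linarith)]
  linarith

lemma gg_anti {x y : ℝ} (hx : 0 ≤ x) (h : x ≤ y) : gg y ≤ gg x := by
  unfold gg
  exact one_div_le_one_div_of_le (by linarith) (by linarith)

lemma log_gg {L : ℝ} (h : 0 ≤ L) : Real.log (gg L) = - Real.log (1 + L) := by
  unfold gg
  rw [one_div, Real.log_inv]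

lemma hl_pos {L : ℝ} (h : 0 < L) : 0 < hl L := by
  unfold hl
  have h1 : (0 : ℝ) < 1 / (1 + L) := by positivity
  have h2 : (1 : ℝ) / (1 + L) ≠ 1 := by
    rw [Ne, div_eq_one_iff_eq (by linarith)]
    linarith
  have h3 := Real.log_lt_sub_one_of_pos h1 h2
  rw [one_div, Real.log_inv] at h3
  have h4 : L / (1 + L) = 1 - (1 + L)⁻¹ := by field_simp; ring
  linarith

lemma uu_pos {L : ℝ} (h : 0 < L) : 0 < uu L := div_pos (hl_pos h) (by positivity)

lemma aa_pos {L : ℝ} (h : 0 < L) : 0 < aa L := div_pos (by positivity) (hl_pos h)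

lemma aa_mul_uu {L : ℝ} (h : 0 < L) : aa L * uu L = gg L ^ 2 := by
  have := (hl_pos h).ne'
  unfold aa uu gg
  field_simp

lemma ph_of_pos {L : ℝ} (h : 0 < L) : ph L = Real.log (1 + L) / L := by
  rw [ph, if_neg h.ne']

lemma ph_zero : ph 0 = 1 := by simp [ph]

lemma mul_ph {L : ℝ} : L * ph L = Real.log (1 + L) := by
  by_cases h : L = 0
  · simp [h]
  · rw [ph, if_neg h]
    field_simp

lemma mul_uu {L : ℝ} (h : 0 < L) : L * uu L = ph L - gg L := by
  rw [ph_of_pos h]
  unfold uu hl gg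
  field_simp

lemma ph_pos {L : ℝ} (h : 0 ≤ L) : 0 < ph L := by
  rcases h.eq_or_lt with h | h
  · rw [← h, ph_zero]; exact one_pos
  · rw [ph_of_pos h]
    exact div_pos (Real.log_pos (by linarith)) h

lemma ph_le_one {L : ℝ} (h : 0 ≤ L) : ph L ≤ 1 := by
  rcases h.eq_or_lt with h | h
  · rw [← h, ph_zero]
  · rw [ph_of_pos h, div_le_one h]
    have := Real.log_le_sub_one_of_pos (show (0 : ℝ) < 1 + L by linarith)
    linarith

lemma hasDerivAt_gg {L : ℝ} (h : 0 ≤ L) : HasDerivAt gg (-(gg L) ^ 2) L := by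
  have h1 : HasDerivAt (fun x : ℝ => 1 + x) 1 L := (hasDerivAt_id L).const_add 1
  have h2 := h1.inv (by linarith : (1 : ℝ) + L ≠ 0)
  have e : gg = fun x : ℝ => (1 + x)⁻¹ := by
    funext x
    rw [gg, one_div]
  rw [e]
  refine h2.congr_deriv ?_
  have : (1 : ℝ) + L ≠ 0 := by linarith
  field_simp

lemma hasDerivAt_log1 {L : ℝ} (h : 0 ≤ L) :
    HasDerivAt (fun x : ℝ => Real.log (1 + x)) (gg L) L := by
  have h1 : HasDerivAt (fun x : ℝ => 1 + x) 1 L := (hasDerivAt_id L).const_add 1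
  exact h1.log (by linarith : (1 : ℝ) + L ≠ 0)

lemma hasDerivAt_ph {L : ℝ} (h : 0 < L) : HasDerivAt ph (-(uu L)) L := by
  have h1 := (hasDerivAt_log1 h.le).div (hasDerivAt_id L) h.ne'
  refine (h1.congr_deriv ?_).congr_of_eventuallyEq ?_
  · unfold uu hl gg
    simp only [id]
    have : (1 : ℝ) + L ≠ 0 := by linarith
    field_simp
    ring
  · filter_upwards [lt_mem_nhds h] with x hx
    exact ph_of_pos hx

lemma continuousAt_ph {L : ℝ} (h : 0 ≤ L) : ContinuousAt ph L := by
  rcases h.eq_or_lt with h | h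
  · subst h
    have h1 := hasDerivAt_log1 (le_refl (0 : ℝ))
    rw [hasDerivAt_iff_tendsto_slope] at h1
    have h0 : gg 0 = 1 := by simp [gg]
    rw [h0] at h1
    rw [continuousAt_iff_punctured_nhds, ph_zero]
    refine h1.congr' ?_
    filter_upwards [self_mem_nhdsWithin] with x hx
    have hx' : x ≠ 0 := hx
    rw [slope_def_field, ph, if_neg hx']
    simp
  · exact (hasDerivAt_ph h).continuousAt

lemma hasDerivAt_hl {L : ℝ} (h : 0 ≤ L) : HasDerivAt hl (L * (gg L) ^ 2) L := by
  have h1 := hasDerivAt_log1 h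
  have h2 : HasDerivAt (fun x : ℝ => x / (1 + x)) ((gg L) ^ 2) L := by
    have h3 := (hasDerivAt_id L).div ((hasDerivAt_id L).const_add 1)
      (by simp only [id]; linarith : (1 : ℝ) + id L ≠ 0)
    refine h3.congr_deriv ?_
    unfold gg
    simp only [id]
    have : (1 : ℝ) + L ≠ 0 := by linarith
    field_simp
    ring
  refine (h1.sub h2).congr_deriv ?_
  unfold gg
  have : (1 : ℝ) + L ≠ 0 := by linarith
  field_simp
  ring

/-- `2 log s < s - 1/s` for `s > 1` -/
lemma two_log_lt {s : ℝ} (hs : 1 < s) : 2 * Real.log s < s - s⁻¹ := by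
  have key : StrictMonoOn (fun s : ℝ => s - s⁻¹ - 2 * Real.log s) (Ici 1) := by
    have hd : ∀ x : ℝ, 1 ≤ x → HasDerivAt (fun s : ℝ => s - s⁻¹ - 2 * Real.log s)
        ((1 - x⁻¹) ^ 2) x := by
      intro x hx
      have hx0 : x ≠ 0 := by positivity
      refine (((hasDerivAt_id x).sub (hasDerivAt_inv hx0)).sub
        ((Real.hasDerivAt_log hx0).const_mul 2)).congr_deriv ?_
      field_simp
      ring
    refine strictMonoOn_of_deriv_pos (convex_Ici 1) ?_ ?_
    · exact fun x hx => (hd x hx).continuousAt.continuousWithinAt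
    · intro x hx
      rw [interior_Ici] at hx
      have hx' : (1 : ℝ) < x := hx
      rw [(hd x hx'.le).deriv]
      have : x⁻¹ < 1 := inv_lt_one_of_one_lt₀ hx'
      have : 0 < 1 - x⁻¹ := by linarith
      positivity
  have := key (mem_Ici.2 le_rfl) (mem_Ici.2 hs.le) hs
  simp at this
  linarith

/-- `(L/(1+L))² < 2 hl L` -/
lemma sq_lt_two_hl {L : ℝ} (h : 0 < L) : (L / (1 + L)) ^ 2 < 2 * hl L := by
  have key : StrictMonoOn (fun L : ℝ => 2 * hl L - (L / (1 + L)) ^ 2) (Ici 0) := by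
    have hd : ∀ x : ℝ, 0 ≤ x → HasDerivAt (fun L : ℝ => 2 * hl L - (L / (1 + L)) ^ 2)
        (2 * (x * gg x ^ 2) - 2 * (x / (1 + x)) * gg x ^ 2) x := by
      intro x hx
      have h3 := (hasDerivAt_id x).div ((hasDerivAt_id x).const_add 1)
        (by simp only [id]; linarith : (1 : ℝ) + id x ≠ 0)
      have h2 : HasDerivAt (fun x : ℝ => x / (1 + x)) ((gg x) ^ 2) x := by
        refine h3.congr_deriv ?_
        unfold gg
        simp only [id]
        have : (1 : ℝ) + x ≠ 0 := by linarith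
        field_simp
        ring
      refine (((hasDerivAt_hl hx).const_mul 2).sub (h2.pow 2)).congr_deriv ?_
      ring
    refine strictMonoOn_of_deriv_pos (convex_Ici 0) ?_ ?_
    · exact fun x hx => (hd x hx).continuousAt.continuousWithinAt
    · intro x hx
      rw [interior_Ici] at hx
      have hx' : (0 : ℝ) < x := hx
      rw [(hd x hx'.le).deriv]
      have h1 : 0 < gg x := gg_pos hx'.le
      have h2 : x / (1 + x) < x := by
        rw [div_lt_iff₀ (by linarith)]
        nlinarith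
      have : 2 * (x * gg x ^ 2) - 2 * (x / (1 + x)) * gg x ^ 2 =
          2 * (x - x / (1 + x)) * gg x ^ 2 := by ring
      rw [this]
      have : 0 < x - x / (1 + x) := by linarith
      positivity
  have := key (mem_Ici.2 le_rfl) (mem_Ici.2 h.le) h
  simp [hl] at this
  unfold hl
  linarith

lemma uu_strictAnti : StrictAntiOn uu (Ioi 0) := by
  have hd : ∀ x : ℝ, 0 < x → HasDerivAt uu (((x / (1 + x)) ^ 2 - 2 * hl x) / x ^ 3) x := by
    intro x hx
    have h1 := (hasDerivAt_hl hx.le).div (hasDerivAt_pow 2 x) (by positivity)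
    refine h1.congr_deriv ?_
    unfold gg
    have : (1 : ℝ) + x ≠ 0 := by linarith
    field_simp
    ring
  refine strictAntiOn_of_deriv_neg (convex_Ioi 0) ?_ ?_
  · exact fun x hx => (hd x hx).continuousAt.continuousWithinAt
  · intro x hx
    rw [interior_Ioi] at hx
    have hx' : (0 : ℝ) < x := hx
    rw [(hd x hx').deriv]
    have := sq_lt_two_hl hx'
    exact div_neg_of_neg_of_pos (by linarith) (by positivity)

lemma uu_anti {x y : ℝ} (hx : 0 < x) (h : x ≤ y) : uu y ≤ uu x :=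
  uu_strictAnti.antitoneOn (mem_Ioi.2 hx) (mem_Ioi.2 (hx.trans_le h)) h

lemma aa_strictAnti : StrictAntiOn aa (Ioi 0) := by
  have hd : ∀ x : ℝ, 0 < x → HasDerivAt aa
      ((2 * (x / (1 + x)) * gg x ^ 2 * hl x - (x / (1 + x)) ^ 2 * (x * gg x ^ 2)) / hl x ^ 2) x := by
    intro x hx
    have h3 := (hasDerivAt_id x).div ((hasDerivAt_id x).const_add 1)
      (by simp only [id]; linarith : (1 : ℝ) + id x ≠ 0)
    have h2 : HasDerivAt (fun x : ℝ => x / (1 + x)) ((gg x) ^ 2) x := by
      refine h3.congr_deriv ?_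
      unfold gg
      simp only [id]
      have : (1 : ℝ) + x ≠ 0 := by linarith
      field_simp
      ring
    have h4 := (h2.pow 2).div (hasDerivAt_hl hx.le) (hl_pos hx).ne'
    refine h4.congr_deriv ?_
    simp only [Nat.cast_ofNat, Pi.pow_apply]
    ring
  refine strictAntiOn_of_deriv_neg (convex_Ioi 0) ?_ ?_
  · exact fun x hx => (hd x hx).continuousAt.continuousWithinAt
  · intro x hx
    rw [interior_Ioi] at hx
    have hx' : (0 : ℝ) < x := hx
    rw [(hd x hx').deriv]
    have hp := hl_pos hx'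
    have hg := gg_pos hx'.le
    have hk := two_log_lt (show (1 : ℝ) < 1 + x by linarith)
    have e : 2 * (x / (1 + x)) * gg x ^ 2 * hl x - (x / (1 + x)) ^ 2 * (x * gg x ^ 2) =
        (x / (1 + x)) * gg x ^ 2 * (2 * Real.log (1 + x) - ((1 + x) - (1 + x)⁻¹)) := by
      unfold hl
      have : (1 : ℝ) + x ≠ 0 := by linarith
      field_simp
      ring
    rw [e]
    refine div_neg_of_neg_of_pos ?_ (by positivity)
    have h5 : 0 < (x / (1 + x)) * gg x ^ 2 := by positivity
    nlinarith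

lemma aa_lt {x y : ℝ} (hx : 0 < x) (h : x < y) : aa y < aa x :=
  aa_strictAnti (mem_Ioi.2 hx) (mem_Ioi.2 (hx.trans h)) h

lemma aa_le {x y : ℝ} (hx : 0 < x) (h : x ≤ y) : aa y ≤ aa x :=
  aa_strictAnti.antitoneOn (mem_Ioi.2 hx) (mem_Ioi.2 (hx.trans_le h)) h

lemma aa_lt_two {L : ℝ} (h : 0 < L) : aa L < 2 := by
  unfold aa
  rw [div_lt_iff₀ (hl_pos h)]
  exact sq_lt_two_hl h

/-- tangent line inequality for `φ` -/
lemma ph_tangent {x y : ℝ} (hx : 0 < x) (hy : 0 ≤ y) : ph x - uu x * (y - x) ≤ ph y := by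
  have hd : ∀ z : ℝ, 0 < z → HasDerivAt (fun z => ph z + uu x * z) (-(uu z) + uu x) z := by
    intro z hz
    refine ((hasDerivAt_ph hz).add ((hasDerivAt_id z).const_mul (uu x))).congr_deriv ?_
    ring
  have hc : ContinuousOn (fun z => ph z + uu x * z) (Ici 0) := by
    intro z hz
    exact ((continuousAt_ph hz).add (continuousAt_id.const_mul (uu x))).continuousWithinAt
  have hA : AntitoneOn (fun z => ph z + uu x * z) (Icc 0 x) := by
    refine antitoneOn_of_deriv_nonpos (convex_Icc 0 x) (hc.mono Icc_subset_Ici_self) ?_ ?_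
    · intro z hz
      rw [interior_Icc] at hz
      exact (hd z hz.1).differentiableAt.differentiableWithinAt
    · intro z hz
      rw [interior_Icc] at hz
      rw [(hd z hz.1).deriv]
      have := uu_anti hz.1 hz.2.le
      linarith
  have hM : MonotoneOn (fun z => ph z + uu x * z) (Ici x) := by
    refine monotoneOn_of_deriv_nonneg (convex_Ici x) (hc.mono (Ici_subset_Ici.2 hx.le)) ?_ ?_
    · intro z hz
      rw [interior_Ici] at hz
      exact (hd z (hx.trans hz)).differentiableAt.differentiableWithinAt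
    · intro z hz
      rw [interior_Ici] at hz
      rw [(hd z (hx.trans hz)).deriv]
      have := uu_anti hx (le_of_lt (mem_Ioi.1 hz))
      linarith
  rcases le_total y x with h | h
  · have := hA (mem_Icc.2 ⟨hy, h⟩) (mem_Icc.2 ⟨hx.le, le_rfl⟩) h
    simp only at this
    nlinarith
  · have := hM (mem_Ici.2 le_rfl) (mem_Ici.2 h) h
    simp only at this
    nlinarith

lemma ph_anti {x y : ℝ} (hx : 0 ≤ x) (h : x ≤ y) : ph y ≤ ph x := by
  rcases hx.eq_or_lt with h0 | h0
  · rw [← h0, ph_zero]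
    exact ph_le_one (hx.trans h)
  · have hy : 0 < y := h0.trans_le h
    have := ph_tangent hy hx
    have h2 := uu_pos hy
    nlinarith

/-- `σ_M(L) = g(L) - M φ(L)` -/
noncomputable def sM (M L : ℝ) : ℝ := gg L - M * ph L

lemma hasDerivAt_sM (M : ℝ) {L : ℝ} (h : 0 < L) :
    HasDerivAt (sM M) (-(gg L ^ 2 - M * uu L)) L := by
  refine ((hasDerivAt_gg h.le).sub ((hasDerivAt_ph h).const_mul M)).congr_deriv ?_
  ring

lemma continuousAt_gg {L : ℝ} (h : 0 ≤ L) : ContinuousAt gg L := (hasDerivAt_gg h).continuousAt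

lemma continuousAt_sM (M : ℝ) {L : ℝ} (h : 0 ≤ L) : ContinuousAt (sM M) L :=
  (continuousAt_gg h).sub ((continuousAt_ph h).const_mul M)

/-- `a(T)` is the multiplier for which `σ_M` is minimal at `T`: slope -/
lemma slope_nonneg {L T : ℝ} (hL : 0 < L) (h : L ≤ T) : 0 ≤ gg L ^ 2 - aa T * uu L := by
  rw [← aa_mul_uu hL]
  have := aa_le hL h
  have := uu_pos hL
  nlinarith

lemma sM_antitone {T : ℝ} (hT : 0 < T) : AntitoneOn (sM (aa T)) (Icc 0 T) := by
  refine antitoneOn_of_deriv_nonpos (convex_Icc 0 T) ?_ ?_ ?_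
  · exact fun z hz => (continuousAt_sM _ hz.1).continuousWithinAt
  · intro z hz
    rw [interior_Icc] at hz
    exact (hasDerivAt_sM _ hz.1).differentiableAt.differentiableWithinAt
  · intro z hz
    rw [interior_Icc] at hz
    rw [(hasDerivAt_sM _ hz.1).deriv]
    have := slope_nonneg hz.1 hz.2.le
    linarith

/-- the flattened potential -/
noncomputable def sg (T L : ℝ) : ℝ := sM (aa T) (min L T)

/-- minus the left derivative of the flattened potential -/
noncomputable def tt (T L : ℝ) : ℝ := if L < T then gg L ^ 2 - aa T * uu L else 0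

lemma tt_nonneg {T L : ℝ} (hL : 0 < L) : 0 ≤ tt T L := by
  rw [tt]
  split_ifs with h
  · exact slope_nonneg hL h.le
  · exact le_rfl

lemma tt_eq_of_le {T L : ℝ} (hT : 0 < T) (h : L ≤ T) : tt T L = gg L ^ 2 - aa T * uu L := by
  rw [tt]
  split_ifs with h1
  · rfl
  · have : L = T := le_antisymm h (not_lt.1 h1)
    rw [this, aa_mul_uu hT, sub_self]

lemma sg_antitone {T x y : ℝ} (hT : 0 < T) (hx : 0 ≤ x) (h : x ≤ y) : sg T y ≤ sg T x := by
  rw [sg, sg]
  refine sM_antitone hT ?_ ?_ (min_le_min_right T h)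
  · exact ⟨le_min hx hT.le, min_le_right _ _⟩
  · exact ⟨le_min (hx.trans h) hT.le, min_le_right _ _⟩

/-- comparison of the flattening points -/
lemma sM_compare {T T' L : ℝ} (hT' : 0 < T') (h : T' ≤ T) (hL : 0 ≤ L) :
    sM (aa T) (min L T) ≤ sM (aa T) (min L T') := by
  have hT : 0 < T := hT'.trans_le h
  refine sM_antitone hT ?_ ?_ (min_le_min_left L h)
  · exact ⟨le_min hL hT'.le, (min_le_right _ _).trans h⟩
  · exact ⟨le_min hL hT.le, min_le_right _ _⟩

/-- left derivative of the flattened potential -/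
lemma hasDerivWithinAt_sg {T L : ℝ} (hT : 0 < T) (hL : 0 < L) :
    HasDerivWithinAt (sg T) (-(tt T L)) (Iic L) L := by
  rcases le_or_gt L T with h | h
  · rw [tt_eq_of_le hT h]
    refine (hasDerivAt_sM (aa T) hL).hasDerivWithinAt.congr ?_ ?_
    · intro x hx
      rw [sg, min_eq_left ((mem_Iic.1 hx).trans h)]
    · rw [sg, min_eq_left h]
  · rw [tt, if_neg (not_lt.2 h.le), neg_zero]
    have h1 : sg T =ᶠ[nhds L] fun _ => sM (aa T) T := by
      filter_upwards [lt_mem_nhds h] with x hx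
      rw [sg, min_eq_right hx.le]
    exact ((hasDerivAt_const L (sM (aa T) T)).congr_of_eventuallyEq h1).hasDerivWithinAt

/-- `φ(min(L,T))` -/
noncomputable def pT (T L : ℝ) : ℝ := ph (min L T)

lemma hasDerivWithinAt_pT_left {T L : ℝ} (hL : 0 < L) :
    HasDerivWithinAt (pT T) (-(if L ≤ T then uu L else 0)) (Iic L) L := by
  split_ifs with h
  · refine (hasDerivAt_ph hL).hasDerivWithinAt.congr ?_ ?_
    · intro x hx
      rw [pT, min_eq_left ((mem_Iic.1 hx).trans h)]
    · rw [pT, min_eq_left h]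
  · rw [neg_zero]
    have h1 : pT T =ᶠ[nhds L] fun _ => ph T := by
      filter_upwards [lt_mem_nhds (not_le.1 h)] with x hx
      rw [pT, min_eq_right hx.le]
    exact ((hasDerivAt_const L (ph T)).congr_of_eventuallyEq h1).hasDerivWithinAt

lemma hasDerivWithinAt_pT_right {T L : ℝ} (hL : 0 < L) :
    HasDerivWithinAt (pT T) (-(if L < T then uu L else 0)) (Ici L) L := by
  split_ifs with h
  · have h1 : pT T =ᶠ[nhds L] ph := by
      filter_upwards [gt_mem_nhds h] with x hx
      rw [pT, min_eq_left (le_of_lt hx)]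
    exact ((hasDerivAt_ph hL).congr_of_eventuallyEq h1).hasDerivWithinAt
  · rw [neg_zero]
    refine (hasDerivAt_const L (ph T)).hasDerivWithinAt.congr ?_ ?_
    · intro x hx
      rw [pT, min_eq_right ((not_lt.1 h).trans (mem_Ici.1 hx))]
    · rw [pT, min_eq_right (not_lt.1 h)]

lemma pT_pos {T L : ℝ} (hT : 0 ≤ T) (hL : 0 ≤ L) : 0 < pT T L := ph_pos (le_min hL hT)

lemma pT_le_one {T L : ℝ} (hT : 0 ≤ T) (hL : 0 ≤ L) : pT T L ≤ 1 := ph_le_one (le_min hL hT)

lemma continuousAt_aa {T : ℝ} (h : 0 < T) : ContinuousAt aa T := by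
  unfold aa
  refine ContinuousAt.div ?_ (hasDerivAt_hl h.le).continuousAt (hl_pos h).ne'
  refine ContinuousAt.pow (ContinuousAt.div continuousAt_id (by fun_prop) ?_) 2
  linarith

lemma ph_continuousOn : ContinuousOn ph (Ici 0) :=
  fun _ hz => (continuousAt_ph hz).continuousWithinAt

lemma gg_continuousOn : ContinuousOn gg (Ici 0) :=
  fun _ hz => (continuousAt_gg hz).continuousWithinAt

lemma aa_continuousOn : ContinuousOn aa (Ioi 0) :=
  fun _ hz => (continuousAt_aa hz).continuousWithinAt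

end Pool.Agent.Helper65.HC
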