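import Pool.Agent.Helper65.HC.Quad
import Pool.Agent.Helper65.HC.Final

/-!
# Reduction to a two-type inequality
-/

namespace Pool.Agent.Helper65.HC

open Finset Classical

universe u

/-- the vertex part of the certificate -/
noncomputable def vtx (T κ θ l X L y : ℝ) : ℝ :=
  θ * (y * (1 - aa T) + aa T * (y * Real.log y) - sg T L) - l * (y - 1) +
    κ * (GG X - pT T L)

/-- the symmetric pair expression for the types `(L, y)`, `(L', y')` -/
noncomputable def pairE (T κ θ l X L y θ' l' X' L' y' : ℝ) : ℝ :=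
  vtx T κ θ l X L y / L + vtx T κ θ' l' X' L' y' / L' +
    θ * (tt T L' - y * sg T L') + θ' * (tt T L - y' * sg T L) - l * y' - l' * y -
      2 * κ * (ff X * ff X')

/-- a pairwise certificate at threshold `T` -/
structure PairCert (T κ : ℝ) : Prop where
  ex : ∃ θ l X : ℝ → ℝ → ℝ,
    (∀ L y, 0 < L → 0 < y → y ≤ 1 → 0 < θ L y ∧ 0 ≤ l L y ∧ 0 ≤ X L y) ∧
    ∀ L y L' y', 0 < L → 0 < y → y ≤ 1 → 0 < L' → 0 < y' → y' ≤ 1 →
      0 ≤ pairE T κ (θ L y) (l L y) (X L y) L y (θ L' y') (l L' y') (X L' y') L' y'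

variable {V : Type u} [Fintype V] (G : SimpleGraph V)

lemma Phi_kill_ge {T : ℝ} (hT : 0 < T) {w : V → ℝ} (hw : ∀ v, 0 ≤ w v) (v : V) :
    -∑ x ∈ cn G v, w x * sg T (Lw G w x) ≤ Phi G T (kill G v w) - Phi G T w := by
  rw [Phi, Phi, pot_kill, pot_split G (sg T) v w]
  have h : ∑ u ∈ univ.filter (fun u => u ∉ cn G v), w u * sg T (Lw G w u) ≤
      ∑ u ∈ univ.filter (fun u => u ∉ cn G v), w u * sg T (Lw G (kill G v w) u) := by
    refine sum_le_sum fun u _ => mul_le_mul_of_nonneg_left ?_ (hw u)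
    refine sg_antitone hT (Lw_nonneg G (kill_nonneg G hw v) u) ?_
    exact Lw_mono G (kill_le G hw v) u
  linarith

/-- lower bound for the critical expression -/
lemma crit_lower {T : ℝ} (hT : 0 < T) {w y : V → ℝ} (h : Crit G T w y) {v : V} (hv : 0 < w v) :
    y v * (1 - aa T) + aa T * (y v * Real.log (y v)) - sg T (Lw G w v) +
      ∑ x ∈ cn G v, w x * (tt T (Lw G w x) - y v * sg T (Lw G w x)) < 0 := by
  have h1 := h.neg v hv
  have h2 := Phi_kill_ge G hT h.w_nonneg v
  have h3 := h.y_pos v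
  have h4 : y v * (-∑ x ∈ cn G v, w x * sg T (Lw G w x)) ≤
      y v * (Phi G T (kill G v w) - Phi G T w) := mul_le_mul_of_nonneg_left h2 h3.le
  rw [dPhi] at h1
  have h5 : ∑ x ∈ cn G v, w x * (tt T (Lw G w x) - y v * sg T (Lw G w x)) =
      (∑ x ∈ cn G v, w x * tt T (Lw G w x)) - y v * ∑ x ∈ cn G v, w x * sg T (Lw G w x) := by
    rw [mul_sum, ← sum_sub_distrib]
    exact sum_congr rfl fun x _ => by ring
  rw [h5]
  linarith

/-- a pair certificate contradicts the critical conditions -/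
theorem pair_contra {T κ : ℝ} (hT : 0 < T) (hκ : 0 ≤ κ) (hcert : PairCert T κ) {w y : V → ℝ}
    (h : Crit G T w y) (hR : κ = 0 ∨ RT G T w ≤ 0) : False := by
  obtain ⟨θ, l, X, hpos, hE⟩ := hcert.ex
  have hw := h.w_nonneg
  set L : V → ℝ := fun v => Lw G w v with hLdef
  set th : V → ℝ := fun v => θ (L v) (y v) with hth
  set ll : V → ℝ := fun v => l (L v) (y v) with hll
  -- for vertices of weight zero the closed neighbourhood may be empty of weight
  set XX : V → ℝ := fun v => if 0 < L v then X (L v) (y v) else 0 with hXX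
  have hL0 : ∀ v, 0 ≤ L v := fun v => Lw_nonneg G hw v
  have hLpos : ∀ v, 0 < w v → 0 < L v := fun v hv => hv.trans_le (le_Lw G hw (self_mem_cn G v))
  have hXX0 : ∀ v, 0 ≤ XX v := by
    intro v
    simp only [hXX]
    split_ifs with h0
    · exact (hpos _ _ h0 (h.y_pos v) (h.y_le v)).2.2
    · exact le_rfl
  -- the three families of inequalities
  have i1 : ∀ v, 0 < w v → w v * th v * (y v * (1 - aa T) + aa T * (y v * Real.log (y v)) -
      sg T (L v) + ∑ x ∈ cn G v, w x * (tt T (L x) - y v * sg T (L x))) < 0 := by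
    intro v hv
    have h1 := crit_lower G hT h hv
    have h2 := (hpos _ _ (hLpos v hv) (h.y_pos v) (h.y_le v)).1
    exact mul_neg_of_pos_of_neg (mul_pos hv h2) h1
  have i2 : ∀ v, 0 ≤ w v * ll v * (y v - 1 + ∑ x ∈ cn G v, w x * y x) := by
    intro v
    rcases (hw v).eq_or_lt with h0 | h0
    · rw [← h0]; simp
    · have h1 := h.l1 v
      have h2 := (hpos _ _ (hLpos v h0) (h.y_pos v) (h.y_le v)).2.1
      exact mul_nonneg (mul_nonneg h0.le h2) (by linarith)
  have i3 : κ * ((∑ v, w v * (GG (XX v) - pT T (L v))) -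
      ∑ v, ∑ x ∈ cn G v, (w v * ff (XX v)) * (w x * ff (XX x))) ≤ 0 := by
    rcases hR with h0 | h0
    · rw [h0]; simp
    · refine mul_nonpos_of_nonneg_of_nonpos hκ ?_
      have h1 := quad_sssz G hw hXX0
      rw [RT, BT, pot] at h0
      rw [Qw, QF] at h1
      simp only [cf] at h1
      have h2 : ∑ v, w v * (GG (XX v) - pT T (L v)) = (∑ v, w v * GG (XX v)) -
          ∑ v, w v * pT T (Lw G w v) := by
        rw [← sum_sub_distrib]
        exact sum_congr rfl fun v _ => by ring
      rw [h2]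
      linarith
  -- the pair sum
  have hpair : 0 ≤ ∑ v, ∑ x ∈ cn G v, w v * w x *
      pairE T κ (th v) (ll v) (XX v) (L v) (y v) (th x) (ll x) (XX x) (L x) (y x) := by
    refine sum_nonneg fun v _ => sum_nonneg fun x _ => ?_
    rcases (hw v).eq_or_lt with h0 | h0
    · rw [← h0]; simp
    rcases (hw x).eq_or_lt with h1 | h1
    · rw [← h1]; simp
    refine mul_nonneg (mul_nonneg h0.le h1.le) ?_
    have h2 := hE (L v) (y v) (L x) (y x) (hLpos v h0) (h.y_pos v) (h.y_le v)
      (hLpos x h1) (h.y_pos x) (h.y_le x)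
    have e1 : XX v = X (L v) (y v) := if_pos (hLpos v h0)
    have e2 : XX x = X (L x) (y x) := if_pos (hLpos x h1)
    rw [e1, e2]
    exact h2
  -- one-sided version
  set F : V → V → ℝ := fun v x => w v * w x *
    (vtx T κ (th v) (ll v) (XX v) (L v) (y v) / L v + th v * (tt T (L x) - y v * sg T (L x)) -
      ll v * y x - κ * (ff (XX v) * ff (XX x))) with hF
  have hsplit : ∑ v, ∑ x ∈ cn G v, w v * w x *
      pairE T κ (th v) (ll v) (XX v) (L v) (y v) (th x) (ll x) (XX x) (L x) (y x) =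
      2 * ∑ v, ∑ x ∈ cn G v, F v x := by
    have e : ∀ v x, w v * w x *
        pairE T κ (th v) (ll v) (XX v) (L v) (y v) (th x) (ll x) (XX x) (L x) (y x) =
        F v x + F x v := by
      intro v x
      simp only [hF, pairE]
      ring
    simp only [e, sum_add_distrib]
    rw [pair_sum_symm G (fun v x => F x v)]
    ring
  have hFsum : ∑ v, ∑ x ∈ cn G v, F v x =
      (∑ v, w v * th v * (y v * (1 - aa T) + aa T * (y v * Real.log (y v)) -
      sg T (L v) + ∑ x ∈ cn G v, w x * (tt T (L x) - y v * sg T (L x)))) -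
      (∑ v, w v * ll v * (y v - 1 + ∑ x ∈ cn G v, w x * y x)) +
      κ * ((∑ v, w v * (GG (XX v) - pT T (L v))) -
      ∑ v, ∑ x ∈ cn G v, (w v * ff (XX v)) * (w x * ff (XX x))) := by
    have e : ∀ v, ∑ x ∈ cn G v, F v x =
        w v * th v * (y v * (1 - aa T) + aa T * (y v * Real.log (y v)) -
        sg T (L v) + ∑ x ∈ cn G v, w x * (tt T (L x) - y v * sg T (L x))) -
        w v * ll v * (y v - 1 + ∑ x ∈ cn G v, w x * y x) +
        κ * (w v * (GG (XX v) - pT T (L v))) -
        κ * ∑ x ∈ cn G v, (w v * ff (XX v)) * (w x * ff (XX x)) := by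
      intro v
      rcases (hw v).eq_or_lt with h0 | h0
      · simp [hF, ← h0]
      have hLv := hLpos v h0
      have e1 : ∑ x ∈ cn G v, F v x =
          w v * (vtx T κ (th v) (ll v) (XX v) (L v) (y v) / L v) * (∑ x ∈ cn G v, w x) +
          w v * th v * (∑ x ∈ cn G v, w x * (tt T (L x) - y v * sg T (L x))) -
          w v * ll v * (∑ x ∈ cn G v, w x * y x) -
          κ * ∑ x ∈ cn G v, (w v * ff (XX v)) * (w x * ff (XX x)) := by
        rw [mul_sum, mul_sum, mul_sum, mul_sum, ← sum_add_distrib, ← sum_sub_distrib,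
          ← sum_sub_distrib]
        refine sum_congr rfl fun x _ => ?_
        simp only [hF]
        ring
      rw [e1]
      have e2 : ∑ x ∈ cn G v, w x = L v := rfl
      rw [e2]
      have e3 : w v * (vtx T κ (th v) (ll v) (XX v) (L v) (y v) / L v) * L v =
          w v * vtx T κ (th v) (ll v) (XX v) (L v) (y v) := by
        field_simp
      rw [e3, vtx]
      ring
    rw [sum_congr rfl fun v _ => e v]
    rw [sum_sub_distrib, sum_add_distrib, sum_sub_distrib, ← mul_sum, ← mul_sum]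
    ring
  rw [hsplit, hFsum] at hpair
  have j2 : 0 ≤ ∑ v, w v * ll v * (y v - 1 + ∑ x ∈ cn G v, w x * y x) :=
    sum_nonneg fun v _ => i2 v
  have j1 : (∑ v, w v * th v * (y v * (1 - aa T) + aa T * (y v * Real.log (y v)) -
      sg T (L v) + ∑ x ∈ cn G v, w x * (tt T (L x) - y v * sg T (L x)))) < 0 := by
    obtain ⟨v0, hv0⟩ := h.w_ne
    refine sum_neg' (fun v _ => ?_) ⟨v0, mem_univ v0, i1 v0 hv0⟩
    rcases (hw v).eq_or_lt with h0 | h0
    · rw [← h0]; simp
    · exact (i1 v h0).le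
  linarith

/-- **Pair certificates at all thresholds imply the weighted hard-core Caro-Wei inequality.** -/
theorem caroWei_of_pair {T0 : ℝ} (hT0 : 0 < T0) (base : PairCert T0 0)
    (main : ∀ T, T0 < T → ∃ κ, 0 ≤ κ ∧ PairCert T κ) {w : V → ℝ} (hw : ∀ v, 0 ≤ w v) :
    ∑ v, w v * gg (Lw G w v) ≤ mu G w := by
  refine caroWei_of_gen G hT0 (fun w y h => pair_contra G hT0 le_rfl base h (Or.inl rfl)) ?_ hw
  intro T w y hT h hR _
  obtain ⟨κ, hκ, hc⟩ := main T hT
  exact pair_contra G (hT0.trans hT) hκ hc h (Or.inr hR)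

/-- A pair certificate without `R` at one threshold gives the inequality when all `L_v ≤ T0`. -/
theorem caroWei_of_pair_base {T0 : ℝ} (hT0 : 0 < T0) (base : PairCert T0 0)
    {w : V → ℝ} (hw : ∀ v, 0 ≤ w v) (hL : ∀ v, Lw G w v ≤ T0) :
    ∑ v, w v * gg (Lw G w v) ≤ mu G w :=
  caroWei_of_base G hT0 (fun w y h => pair_contra G hT0 le_rfl base h (Or.inl rfl)) hw hL

/-- The frozen statement from pair certificates. -/
theorem frozen_of_pair {T0 : ℝ} (hT0 : 0 < T0) (base : PairCert T0 0)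
    (main : ∀ T, T0 < T → ∃ κ, 0 ≤ κ ∧ PairCert T κ) :
    ∀ (V : Type) [Fintype V] (G : SimpleGraph V) (t : ℝ), 0 < t →
      (∑ v : V, t / (1 + ((G.degree v : ℝ) + 1) * t)) ≤
        (∑ I ∈ (Finset.univ : Finset (Finset V)).filter
              (fun I : Finset V => G.IsIndepSet (↑I : Set V)),
            ((Finset.card I : ℕ) : ℝ) * t ^ (Finset.card I)) /
        (∑ I ∈ (Finset.univ : Finset (Finset V)).filter
              (fun I : Finset V => G.IsIndepSet (↑I : Set V)),
            t ^ (Finset.card I)) := by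
  intro V _ G t ht
  exact ineq_of_weighted G (caroWei_of_pair G hT0 base main (w := fun _ => t) fun _ => ht.le)

end Pool.Agent.Helper65.HC
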