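import Pool.Agent.Helper65.HC.Basic
import Pool.Agent.Helper65.HC.Fun

/-!
# Potentials for the weighted hard-core model, and the weighted lower bound for `log Z`
-/

namespace Pool.Agent.Helper65.HC

open Finset Classical

universe u

variable {V : Type u} [Fintype V] (G : SimpleGraph V)

/-- a potential `∑ w_v f(L_v)` -/
noncomputable def pot (f : ℝ → ℝ) (w : V → ℝ) : ℝ := ∑ v, w v * f (Lw G w v)

/-- derivative of a potential -/
noncomputable def dpot (f f' : ℝ → ℝ) (w : V → ℝ) (v : V) : ℝ :=
  f (Lw G w v) + ∑ u ∈ cn G v, w u * f' (Lw G w u)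

lemma Lw_update (w : V → ℝ) (v u : V) (x : ℝ) :
    Lw G (Function.update w v x) u = if v ∈ cn G u then (Lw G w u - w v) + x else Lw G w u := by
  split_ifs with h
  · have h1 : Lw G w u = w v + ∑ z ∈ (cn G u).erase v, w z := by
      rw [Lw, add_sum_erase _ _ h]
    have h2 : Lw G (Function.update w v x) u = x + ∑ z ∈ (cn G u).erase v, w z := by
      rw [Lw, ← add_sum_erase _ _ h, Function.update_self]
      congr 1
      refine sum_congr rfl fun z hz => ?_
      rw [Function.update_of_ne (ne_of_mem_erase hz)]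
    rw [h1, h2]
    ring
  · rw [Lw, Lw]
    refine sum_congr rfl fun z hz => ?_
    rw [Function.update_of_ne]
    rintro rfl
    exact h hz

/-- one-sided derivative of a potential in a coordinate direction -/
lemma hasDerivWithinAt_pot {I : ℝ → Set ℝ} (hI : ∀ c a x, x ∈ I a → c + x ∈ I (c + a))
    {f f' : ℝ → ℝ} (hc : ∀ L, 0 ≤ L → ContinuousWithinAt f (I L) L)
    (hf : ∀ L, 0 < L → HasDerivWithinAt f (f' L) (I L) L)
    {w : V → ℝ} (hw : ∀ v, 0 ≤ w v) (v : V) :
    HasDerivWithinAt (fun x => pot G f (Function.update w v x)) (dpot G f f' w v)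
      (I (w v)) (w v) := by
  have hterm : ∀ u : V, HasDerivWithinAt
      (fun x => (Function.update w v x) u * f (Lw G (Function.update w v x) u))
      ((if u = v then f (Lw G w v) else 0) + (if u ∈ cn G v then w u * f' (Lw G w u) else 0))
      (I (w v)) (w v) := by
    intro u
    -- the inner function
    by_cases huv : u ∈ cn G v
    · have hvu : v ∈ cn G u := (mem_cn_comm G).1 huv
      have hin : HasDerivWithinAt (fun x : ℝ => (Lw G w u - w v) + x) 1 (I (w v)) (w v) :=
        ((hasDerivAt_id (w v)).const_add _).hasDerivWithinAt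
      have hmap : Set.MapsTo (fun x : ℝ => (Lw G w u - w v) + x) (I (w v)) (I (Lw G w u)) := by
        intro x hx
        have := hI (Lw G w u - w v) (w v) x hx
        rwa [sub_add_cancel] at this
      have he : (Lw G w u - w v) + w v = Lw G w u := sub_add_cancel _ _
      have hLu : w v ≤ Lw G w u := le_Lw G hw hvu
      rw [if_pos huv]
      by_cases h1 : u = v
      · subst h1
        rw [if_pos rfl]
        have hfun : (fun x => (Function.update w u x) u * f (Lw G (Function.update w u x) u)) =
            fun x => x * f ((Lw G w u - w u) + x) := by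
          funext x
          rw [Function.update_self, Lw_update, if_pos hvu]
        rw [hfun]
        rcases (hw u).eq_or_lt with h0 | h0
        · -- weight zero
          rw [← h0]
          simp only [sub_zero, zero_mul, add_zero]
          rw [hasDerivWithinAt_iff_tendsto_slope]
          have hcw : ContinuousWithinAt (fun x : ℝ => f (Lw G w u + x)) (I 0) 0 := by
            have h2 := hc (Lw G w u) (Lw_nonneg G hw u)
            refine ContinuousWithinAt.comp (t := I (Lw G w u)) ?_ ?_ ?_
            · simpa using h2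
            · exact (continuous_const.add continuous_id).continuousWithinAt
            · intro x hx
              have := hI (Lw G w u) 0 x hx
              simpa using this
          have h3 : Filter.Tendsto (fun x : ℝ => f (Lw G w u + x)) (nhdsWithin 0 (I 0 \ {0}))
              (nhds (f (Lw G w u))) := by
            have := hcw.tendsto.mono_left
              (nhdsWithin_mono (0 : ℝ) (Set.sdiff_subset : I 0 \ {0} ⊆ I 0))
            simpa using this
          refine h3.congr' ?_
          filter_upwards [self_mem_nhdsWithin] with x hx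
          have hx' : x ≠ 0 := hx.2
          rw [slope_def_field]
          field_simp
          ring
        · have hL : 0 < Lw G w u := h0.trans_le hLu
          have h2 := hf (Lw G w u) hL
          have h3 : HasDerivWithinAt (fun x : ℝ => f ((Lw G w u - w u) + x))
              (f' (Lw G w u) * 1) (I (w u)) (w u) := by
            refine HasDerivWithinAt.comp (w u) ?_ hin hmap
            rw [he]
            exact h2
          have h4 := ((hasDerivAt_id (w u)).hasDerivWithinAt (s := I (w u))).mul h3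
          refine h4.congr_deriv ?_
          simp only [id]
          rw [he]
          ring
      · rw [if_neg h1, zero_add]
        have hfun : (fun x => (Function.update w v x) u * f (Lw G (Function.update w v x) u)) =
            fun x => w u * f ((Lw G w u - w v) + x) := by
          funext x
          rw [Function.update_of_ne h1, Lw_update, if_pos hvu]
        rw [hfun]
        rcases (hw u).eq_or_lt with h0 | h0
        · rw [← h0]
          simp only [zero_mul]
          exact hasDerivWithinAt_const _ _ _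
        · have hL : 0 < Lw G w u := h0.trans_le (le_Lw G hw (self_mem_cn G u))
          have h3 : HasDerivWithinAt (fun x : ℝ => f ((Lw G w u - w v) + x))
              (f' (Lw G w u) * 1) (I (w v)) (w v) := by
            refine HasDerivWithinAt.comp (w v) ?_ hin hmap
            rw [he]
            exact hf (Lw G w u) hL
          refine (h3.const_mul (w u)).congr_deriv ?_
          ring
    · have hne : u ≠ v := by
        rintro rfl
        exact huv (self_mem_cn G u)
      have hvu : v ∉ cn G u := fun h => huv ((mem_cn_comm G).1 h)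
      rw [if_neg huv, if_neg hne, add_zero]
      have hfun : (fun x => (Function.update w v x) u * f (Lw G (Function.update w v x) u)) =
          fun _ => w u * f (Lw G w u) := by
        funext x
        rw [Function.update_of_ne hne, Lw_update, if_neg hvu]
      rw [hfun]
      exact hasDerivWithinAt_const _ _ _
  have h := HasDerivWithinAt.fun_sum (u := univ) fun u _ => hterm u
  refine h.congr_deriv ?_
  rw [sum_add_distrib, dpot]
  congr 1
  · simp
  · rw [← sum_filter]
    refine sum_congr ?_ fun _ _ => rfl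
    ext u
    simp

lemma hI_Iic : ∀ c a x : ℝ, x ∈ Set.Iic a → c + x ∈ Set.Iic (c + a) := by
  intro c a x hx
  have : x ≤ a := hx
  exact Set.mem_Iic.2 (by linarith)

lemma hI_Ici : ∀ c a x : ℝ, x ∈ Set.Ici a → c + x ∈ Set.Ici (c + a) := by
  intro c a x hx
  have : a ≤ x := hx
  exact Set.mem_Ici.2 (by linarith)

/-- a left derivative at a minimum is nonpositive -/
lemma left_deriv_nonpos {h : ℝ → ℝ} {d a b : ℝ} (hab : a < b)
    (hd : HasDerivWithinAt h d (Set.Iic b) b) (hm : ∀ x, a ≤ x → x ≤ b → h b ≤ h x) :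
    d ≤ 0 := by
  rw [hasDerivWithinAt_iff_tendsto_slope] at hd
  have hne : (nhdsWithin b (Set.Iic b \ {b})).NeBot := by
    rw [Set.Iic_sdiff_right]
    infer_instance
  refine le_of_tendsto hd ?_
  have h1 : ∀ᶠ x in nhdsWithin b (Set.Iic b \ {b}), a < x :=
    nhdsWithin_le_nhds (lt_mem_nhds hab)
  filter_upwards [h1, self_mem_nhdsWithin] with x hx hx2
  have hxb : x < b := lt_of_le_of_ne hx2.1 hx2.2
  rw [slope_def_field]
  have := hm x hx.le hxb.le
  exact div_nonpos_of_nonneg_of_nonpos (by linarith) (by linarith)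

/-- a left derivative at a maximum is nonnegative -/
lemma left_deriv_nonneg {h : ℝ → ℝ} {d a b : ℝ} (hab : a < b)
    (hd : HasDerivWithinAt h d (Set.Iic b) b) (hm : ∀ x, a ≤ x → x ≤ b → h x ≤ h b) :
    0 ≤ d := by
  have := left_deriv_nonpos (h := fun x => - h x) hab hd.neg (fun x h1 h2 => by
    have := hm x h1 h2
    linarith)
  linarith

/-- a right derivative at a maximum is nonpositive -/
lemma right_deriv_nonpos {h : ℝ → ℝ} {d a b : ℝ} (hab : a < b)
    (hd : HasDerivWithinAt h d (Set.Ici a) a) (hm : ∀ x, a ≤ x → x ≤ b → h x ≤ h a) :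
    d ≤ 0 := by
  rw [hasDerivWithinAt_iff_tendsto_slope] at hd
  have hne : (nhdsWithin a (Set.Ici a \ {a})).NeBot := by
    rw [Set.Ici_sdiff_left]
    infer_instance
  refine le_of_tendsto hd ?_
  have h1 : ∀ᶠ x in nhdsWithin a (Set.Ici a \ {a}), x < b :=
    nhdsWithin_le_nhds (gt_mem_nhds hab)
  filter_upwards [h1, self_mem_nhdsWithin] with x hx hx2
  have hxb : a < x := lt_of_le_of_ne hx2.1 (fun h => hx2.2 h.symm)
  rw [slope_def_field]
  have := hm x hxb.le hx.le
  exact div_nonpos_of_nonpos_of_nonneg (by linarith) (by linarith)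

/-- potentials with bounded continuous profile are continuous on the nonnegative orthant -/
lemma continuousOn_pot {f : ℝ → ℝ} (hc : ContinuousOn f (Set.Ici 0)) :
    ContinuousOn (pot G f) {w : V → ℝ | ∀ v, 0 ≤ w v} := by
  unfold pot
  refine continuousOn_finsetSum _ fun v _ => ?_
  refine ContinuousOn.mul (continuous_apply v).continuousOn ?_
  exact hc.comp (continuous_Lw G v).continuousOn fun w hw => Lw_nonneg G hw v

lemma continuousOn_logZ :
    ContinuousOn (fun w => Real.log (Z G w)) {w : V → ℝ | ∀ v, 0 ≤ w v} := by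
  refine ContinuousOn.log (continuous_Z G).continuousOn ?_
  intro w hw
  exact (Z_pos G hw).ne'

lemma continuousOn_mu : ContinuousOn (mu G) {w : V → ℝ | ∀ v, 0 ≤ w v} := by
  unfold mu
  refine ContinuousOn.div (continuous_Nn G).continuousOn (continuous_Z G).continuousOn ?_
  intro w hw
  exact (Z_pos G hw).ne'

/-- existence of a minimiser of `f` which minimises `s` among the minimisers -/
lemma exists_min_min {α : Type*} [TopologicalSpace α] {K : Set α} (hK : IsCompact K)
    (hne : K.Nonempty) {f s : α → ℝ} (hf : ContinuousOn f K) (hs : ContinuousOn s K) :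
    ∃ x ∈ K, (∀ y ∈ K, f x ≤ f y) ∧ ∀ y ∈ K, f y ≤ f x → s x ≤ s y := by
  obtain ⟨x0, hx0, hmin0⟩ := hK.exists_isMinOn hne hf
  have hK' : IsCompact (K ∩ {x | f x ≤ f x0}) := by
    have h1 : ∃ t, IsClosed t ∧ K ∩ {x | f x ≤ f x0} = t ∩ K := by
      have := (continuousOn_iff_isClosed.1 hf) (Set.Iic (f x0)) isClosed_Iic
      obtain ⟨t, ht, hte⟩ := this
      refine ⟨t, ht, ?_⟩
      rw [← hte, Set.inter_comm]
      rfl
    obtain ⟨t, ht, hte⟩ := h1
    rw [hte]
    exact hK.inter_left ht
  obtain ⟨x, hx, hmin⟩ := hK'.exists_isMinOn ⟨x0, hx0, le_refl (f x0)⟩ (hs.mono Set.inter_subset_left)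
  refine ⟨x, hx.1, fun y hy => ?_, fun y hy hxy => ?_⟩
  · exact le_trans hx.2 (hmin0 hy)
  · exact hmin ⟨hy, le_trans hxy hx.2⟩

/-! ### the weighted lower bound for `log Z` -/

/-- `∑ w φ(L)` -/
noncomputable def Binf (w : V → ℝ) : ℝ := pot G ph w

lemma pot_kill (f : ℝ → ℝ) (v : V) (w : V → ℝ) :
    pot G f (kill G v w) = ∑ u ∈ univ.filter (fun u => u ∉ cn G v), w u * f (Lw G (kill G v w) u) := by
  rw [pot, sum_filter]
  refine sum_congr rfl fun u _ => ?_
  by_cases h : u ∈ cn G v
  · simp [kill, h]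
  · simp [kill, h]

lemma pot_split (f : ℝ → ℝ) (v : V) (w : V → ℝ) :
    pot G f w = (∑ u ∈ cn G v, w u * f (Lw G w u)) +
      ∑ u ∈ univ.filter (fun u => u ∉ cn G v), w u * f (Lw G w u) := by
  rw [pot, ← sum_filter_add_sum_filter_not univ (fun u => u ∈ cn G v)]
  congr 1
  refine sum_congr ?_ fun _ _ => rfl
  ext u
  simp

/-- weight of `N[x] ∩ N[v]` -/
noncomputable def ov (w : V → ℝ) (v x : V) : ℝ := ∑ u ∈ (cn G x).filter (fun u => u ∈ cn G v), w u

lemma ov_nonneg {w : V → ℝ} (hw : ∀ v, 0 ≤ w v) (v x : V) : 0 ≤ ov G w v x :=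
  sum_nonneg fun u _ => hw u

lemma Lw_kill (v : V) (w : V → ℝ) (x : V) : Lw G (kill G v w) x = Lw G w x - ov G w v x := by
  have h1 : Lw G w x = ov G w v x + ∑ u ∈ (cn G x).filter (fun u => u ∉ cn G v), w u := by
    rw [Lw, ov, sum_filter_add_sum_filter_not]
  have h2 : Lw G (kill G v w) x = ∑ u ∈ (cn G x).filter (fun u => u ∉ cn G v), w u := by
    rw [Lw, sum_filter]
    refine sum_congr rfl fun u _ => ?_
    by_cases h : u ∈ cn G v <;> simp [kill, h]
  rw [h1, h2]
  ring

lemma pair_sum_symm (F : V → V → ℝ) :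
    ∑ v, ∑ u ∈ cn G v, F v u = ∑ v, ∑ u ∈ cn G v, F u v := by
  have h : ∀ H : V → V → ℝ, ∑ v, ∑ u ∈ cn G v, H v u =
      ∑ v, ∑ u, if u ∈ cn G v then H v u else 0 := by
    intro H
    refine sum_congr rfl fun v _ => ?_
    rw [← sum_filter]
    refine sum_congr ?_ fun _ _ => rfl
    ext u
    simp
  rw [h, h, sum_comm]
  refine sum_congr rfl fun v _ => sum_congr rfl fun u _ => ?_
  simp only [mem_cn_comm G (v := v) (u := u)]

/-- The static argument behind the weighted lower bound. -/
lemma static_sssz {w : V → ℝ} (hw : ∀ v, 0 ≤ w v)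
    (h1 : ∀ v, 0 < w v → qq G w v ≤ dpot G ph (fun L => -(uu L)) w v)
    (h2 : ∀ v, 0 < w v → -Real.log (qq G w v) ≤ Binf G w - Binf G (kill G v w)) :
    ∀ v, 0 < w v → qq G w v = gg (Lw G w v) ∧
      Binf G w - Binf G (kill G v w) ≤ -Real.log (gg (Lw G w v)) := by
  have hLpos : ∀ v, 0 < w v → 0 < Lw G w v := fun v hv =>
    hv.trans_le (le_Lw G hw (self_mem_cn G v))
  -- the bound for `ΔB`
  have hB : ∀ v, Binf G w - Binf G (kill G v w) ≤ (∑ u ∈ cn G v, w u * ph (Lw G w u)) -
      ∑ x ∈ univ.filter (fun u => u ∉ cn G v), w x * (uu (Lw G w x) * ov G w v x) := by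
    intro v
    rw [Binf, Binf, pot_split G ph v w, pot_kill]
    have h3 : ∀ x ∈ univ.filter (fun u => u ∉ cn G v),
        w x * ph (Lw G w x) + w x * (uu (Lw G w x) * ov G w v x) ≤
          w x * ph (Lw G (kill G v w) x) := by
      intro x _
      rcases (hw x).eq_or_lt with h0 | h0
      · rw [← h0]; simp
      · have h4 : 0 ≤ Lw G (kill G v w) x := Lw_nonneg G (kill_nonneg G hw v) x
        have h5 := ph_tangent (hLpos x h0) h4
        rw [Lw_kill] at h5 ⊢
        have h6 : ph (Lw G w x) - uu (Lw G w x) * (Lw G w x - ov G w v x - Lw G w x) =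
            ph (Lw G w x) + uu (Lw G w x) * ov G w v x := by ring
        rw [h6] at h5
        nlinarith
    have h7 := sum_le_sum h3
    rw [sum_add_distrib] at h7
    linarith
  -- the local inequality
  set s : V → ℝ := fun v => ∑ u ∈ cn G v, w u * (uu (Lw G w v) - uu (Lw G w u)) with hs
  have hdp : ∀ v, 0 < w v → dpot G ph (fun L => -(uu L)) w v = gg (Lw G w v) + s v := by
    intro v hv
    have h3 := mul_uu (hLpos v hv)
    rw [dpot, hs]
    simp only [mul_sub, sum_sub_distrib, ← sum_mul]
    rw [show (∑ u ∈ cn G v, w u) = Lw G w v from rfl, h3]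
    simp only [mul_neg, sum_neg_distrib]
    ring
  have hloc : ∀ v, 0 < w v → (∑ u ∈ cn G v, w u * (ph (Lw G w v) - ph (Lw G w u)))
      - (1 + Lw G w v) * s v +
      ∑ x ∈ univ.filter (fun u => u ∉ cn G v), w x * (uu (Lw G w x) * ov G w v x) ≤ 0 := by
    intro v hv
    have hL := hLpos v hv
    have hg := gg_pos hL.le
    have hq := qq_pos G hw v
    have h3 := h1 v hv
    rw [hdp v hv] at h3
    have h4 : Real.log (qq G w v) ≤ Real.log (gg (Lw G w v)) + (1 + Lw G w v) * s v := by
      have h5 : Real.log (qq G w v / gg (Lw G w v)) ≤ qq G w v / gg (Lw G w v) - 1 :=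
        Real.log_le_sub_one_of_pos (div_pos hq hg)
      rw [Real.log_div hq.ne' hg.ne'] at h5
      have h6 : qq G w v / gg (Lw G w v) - 1 ≤ (1 + Lw G w v) * s v := by
        have h7 : qq G w v / gg (Lw G w v) = (1 + Lw G w v) * qq G w v := by
          unfold gg
          have : (1 : ℝ) + Lw G w v ≠ 0 := by linarith
          field_simp
        have h8 : (1 + Lw G w v) * gg (Lw G w v) = 1 := by
          unfold gg
          have : (1 : ℝ) + Lw G w v ≠ 0 := by linarith
          field_simp
        rw [h7]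
        nlinarith
      linarith
    have h5 := h2 v hv
    have h6 := hB v
    have h7 : -Real.log (gg (Lw G w v)) = ∑ u ∈ cn G v, w u * ph (Lw G w v) := by
      rw [← sum_mul, show (∑ u ∈ cn G v, w u) = Lw G w v from rfl, mul_ph, log_gg hL.le, neg_neg]
    simp only [mul_sub, sum_sub_distrib]
    linarith
  -- summation
  have hsum : ∑ v, w v * ((∑ u ∈ cn G v, w u * (ph (Lw G w v) - ph (Lw G w u)))
      - (1 + Lw G w v) * s v +
      ∑ x ∈ univ.filter (fun u => u ∉ cn G v), w x * (uu (Lw G w x) * ov G w v x)) ≤ 0 := by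
    refine sum_nonpos fun v _ => ?_
    rcases (hw v).eq_or_lt with h0 | h0
    · rw [← h0]; simp
    · exact mul_nonpos_of_nonneg_of_nonpos h0.le (hloc v h0)
  have hA : ∑ v, w v * (∑ u ∈ cn G v, w u * (ph (Lw G w v) - ph (Lw G w u))) = 0 := by
    simp_rw [mul_sum]
    have h3 := pair_sum_symm G (fun v u => w v * (w u * (ph (Lw G w v) - ph (Lw G w u))))
    have h4 : ∑ v, ∑ u ∈ cn G v, w u * (w v * (ph (Lw G w u) - ph (Lw G w v))) =
        - ∑ v, ∑ u ∈ cn G v, w v * (w u * (ph (Lw G w v) - ph (Lw G w u))) := by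
      rw [← sum_neg_distrib]
      refine sum_congr rfl fun v _ => ?_
      rw [← sum_neg_distrib]
      exact sum_congr rfl fun u _ => by ring
    linarith
  have hC : 0 ≤ ∑ v, w v * ∑ x ∈ univ.filter (fun u => u ∉ cn G v),
      w x * (uu (Lw G w x) * ov G w v x) := by
    refine sum_nonneg fun v _ => mul_nonneg (hw v) (sum_nonneg fun x _ => ?_)
    rcases (hw x).eq_or_lt with h0 | h0
    · rw [← h0]; simp
    · exact mul_nonneg h0.le (mul_nonneg (uu_pos (hLpos x h0)).le (ov_nonneg G hw v x))
  have hD : -(∑ v, w v * ((1 + Lw G w v) * s v)) =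
      (1 / 2) * ∑ v, ∑ u ∈ cn G v,
        w v * w u * (-((Lw G w v - Lw G w u) * (uu (Lw G w v) - uu (Lw G w u)))) := by
    have h3 : ∑ v, w v * ((1 + Lw G w v) * s v) =
        ∑ v, ∑ u ∈ cn G v, w v * w u * ((1 + Lw G w v) * (uu (Lw G w v) - uu (Lw G w u))) := by
      refine sum_congr rfl fun v _ => ?_
      rw [hs]
      simp only [mul_sum]
      exact sum_congr rfl fun u _ => by ring
    have h4 := pair_sum_symm G
      (fun v u => w v * w u * ((1 + Lw G w v) * (uu (Lw G w v) - uu (Lw G w u))))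
    have h5 : ∑ v, ∑ u ∈ cn G v,
        w v * w u * (-((Lw G w v - Lw G w u) * (uu (Lw G w v) - uu (Lw G w u)))) =
        -(∑ v, ∑ u ∈ cn G v, w v * w u * ((1 + Lw G w v) * (uu (Lw G w v) - uu (Lw G w u)))) -
        ∑ v, ∑ u ∈ cn G v, w u * w v * ((1 + Lw G w u) * (uu (Lw G w u) - uu (Lw G w v))) := by
      rw [← sum_neg_distrib, ← sum_sub_distrib]
      refine sum_congr rfl fun v _ => ?_
      rw [← sum_neg_distrib, ← sum_sub_distrib]
      exact sum_congr rfl fun u _ => by ring
    rw [h5, ← h4, h3]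
    ring
  have hterm : ∀ v u, 0 ≤ w v * w u *
      (-((Lw G w v - Lw G w u) * (uu (Lw G w v) - uu (Lw G w u)))) := by
    intro v u
    rcases (hw v).eq_or_lt with h0 | h0
    · rw [← h0]; simp
    rcases (hw u).eq_or_lt with h3 | h3
    · rw [← h3]; simp
    refine mul_nonneg (mul_nonneg h0.le h3.le) ?_
    rcases le_total (Lw G w v) (Lw G w u) with h4 | h4
    · have := uu_anti (hLpos v h0) h4
      nlinarith
    · have := uu_anti (hLpos u h3) h4
      nlinarith
  have hzero : ∀ v, ∀ u ∈ cn G v, w v * w u *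
      (-((Lw G w v - Lw G w u) * (uu (Lw G w v) - uu (Lw G w u)))) = 0 := by
    have h3 : ∑ v, ∑ u ∈ cn G v, w v * w u *
        (-((Lw G w v - Lw G w u) * (uu (Lw G w v) - uu (Lw G w u)))) = 0 := by
      refine le_antisymm ?_ (sum_nonneg fun v _ => sum_nonneg fun u _ => hterm v u)
      simp only [mul_add, mul_sub, sum_add_distrib, sum_sub_distrib] at hsum
      simp only [mul_sub, sum_sub_distrib] at hA
      simp only [mul_add, mul_sub, sum_add_distrib, sum_sub_distrib] at hD ⊢
      linarith
    intro v u hu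
    have h4 := (sum_eq_zero_iff_of_nonneg
      (fun v _ => sum_nonneg fun u _ => hterm v u)).1 h3 v (mem_univ v)
    exact (sum_eq_zero_iff_of_nonneg (fun u _ => hterm v u)).1 h4 u hu
  have hL : ∀ v, ∀ u ∈ cn G v, 0 < w v → 0 < w u → Lw G w u = Lw G w v := by
    intro v u hu hv hu0
    have h3 := hzero v u hu
    have h4 : (Lw G w v - Lw G w u) * (uu (Lw G w v) - uu (Lw G w u)) = 0 := by
      have : w v * w u ≠ 0 := (mul_pos hv hu0).ne'
      have h5 := (mul_eq_zero.1 h3).resolve_left this
      linarith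
    rcases mul_eq_zero.1 h4 with h5 | h5
    · linarith
    · have := uu_strictAnti.injOn (Set.mem_Ioi.2 (hLpos v hv)) (Set.mem_Ioi.2 (hLpos u hu0))
        (by linarith)
      exact this.symm
  intro v hv
  have hLv := hLpos v hv
  have hs0 : s v = 0 := by
    rw [hs]
    refine sum_eq_zero fun u hu => ?_
    rcases (hw u).eq_or_lt with h0 | h0
    · rw [← h0]; simp
    · rw [hL v u hu hv h0]; simp
  have hup : qq G w v ≤ gg (Lw G w v) := by
    have := h1 v hv
    rw [hdp v hv, hs0, add_zero] at this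
    exact this
  have hBv : Binf G w - Binf G (kill G v w) ≤ -Real.log (gg (Lw G w v)) := by
    have h3 := hB v
    have h4 : ∑ u ∈ cn G v, w u * ph (Lw G w u) = -Real.log (gg (Lw G w v)) := by
      have h5 : ∑ u ∈ cn G v, w u * ph (Lw G w u) = ∑ u ∈ cn G v, w u * ph (Lw G w v) := by
        refine sum_congr rfl fun u hu => ?_
        rcases (hw u).eq_or_lt with h0 | h0
        · rw [← h0]; simp
        · rw [hL v u hu hv h0]
      rw [h5, ← sum_mul, show (∑ u ∈ cn G v, w u) = Lw G w v from rfl, mul_ph,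
        log_gg hLv.le, neg_neg]
    have h6 : 0 ≤ ∑ x ∈ univ.filter (fun u => u ∉ cn G v),
        w x * (uu (Lw G w x) * ov G w v x) := by
      refine sum_nonneg fun x _ => ?_
      rcases (hw x).eq_or_lt with h0 | h0
      · rw [← h0]; simp
      · exact mul_nonneg h0.le (mul_nonneg (uu_pos (hLpos x h0)).le (ov_nonneg G hw v x))
    linarith
  refine ⟨le_antisymm hup ?_, hBv⟩
  have h3 : -Real.log (qq G w v) ≤ -Real.log (gg (Lw G w v)) := (h2 v hv).trans hBv
  have h4 : Real.log (gg (Lw G w v)) ≤ Real.log (qq G w v) := by linarith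
  exact (Real.log_le_log_iff (gg_pos hLv.le) (qq_pos G hw v)).1 h4

/-- the surplus `log Z - ∑ w φ(L)` -/
noncomputable def Wf (w : V → ℝ) : ℝ := Real.log (Z G w) - Binf G w

lemma hasDerivWithinAt_Wf {w : V → ℝ} (hw : ∀ v, 0 ≤ w v) (v : V) :
    HasDerivWithinAt (fun x => Wf G (Function.update w v x))
      (qq G w v - dpot G ph (fun L => -(uu L)) w v) (Set.Iic (w v)) (w v) := by
  refine (hasDerivAt_logZ G hw v).hasDerivWithinAt.sub ?_
  exact hasDerivWithinAt_pot G hI_Iic (fun L hL => (continuousAt_ph hL).continuousWithinAt)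
    (fun L hL => (hasDerivAt_ph hL).hasDerivWithinAt) hw v

lemma box_nonneg {w0 w : V → ℝ} (h : w ∈ Set.Icc (0 : V → ℝ) w0) : ∀ v, 0 ≤ w v := fun v => h.1 v

lemma kill_mem_box {w0 w : V → ℝ} (h : w ∈ Set.Icc (0 : V → ℝ) w0) (v : V) :
    kill G v w ∈ Set.Icc (0 : V → ℝ) w0 :=
  ⟨fun u => kill_nonneg G (box_nonneg h) v u,
    fun u => (kill_le G (box_nonneg h) v u).trans (h.2 u)⟩

lemma update_mem_box {w0 w : V → ℝ} (h : w ∈ Set.Icc (0 : V → ℝ) w0) {v : V} {x : ℝ}
    (hx : 0 ≤ x) (hx2 : x ≤ w v) : Function.update w v x ∈ Set.Icc (0 : V → ℝ) w0 := by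
  constructor
  · intro u
    by_cases hu : u = v
    · subst hu; rw [Function.update_self]; exact hx
    · rw [Function.update_of_ne hu]; exact h.1 u
  · intro u
    by_cases hu : u = v
    · subst hu; rw [Function.update_self]; exact hx2.trans (h.2 u)
    · rw [Function.update_of_ne hu]; exact h.2 u

lemma sum_kill_lt {w : V → ℝ} (hw : ∀ v, 0 ≤ w v) {v : V} (hv : 0 < w v) :
    ∑ u, kill G v w u < ∑ u, w u := by
  refine sum_lt_sum (fun u _ => kill_le G hw v u) ⟨v, mem_univ v, ?_⟩
  rw [kill, if_pos (self_mem_cn G v)]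
  exact hv

lemma Wf_nonneg {w : V → ℝ} (hw : ∀ v, 0 ≤ w v) : 0 ≤ Wf G w := by
  by_contra hcon
  push Not at hcon
  have hK : IsCompact (Set.Icc (0 : V → ℝ) w) := isCompact_Icc
  have hwK : w ∈ Set.Icc (0 : V → ℝ) w := ⟨fun v => hw v, le_rfl⟩
  have hc : ContinuousOn (Wf G) (Set.Icc (0 : V → ℝ) w) :=
    ((continuousOn_logZ G).sub (continuousOn_pot G ph_continuousOn)).mono
      fun x hx => box_nonneg hx
  obtain ⟨x, hx, hmin, hmin2⟩ := exists_min_min hK ⟨w, hwK⟩ hc
    (s := fun x => ∑ v, x v) (by fun_prop)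
  have hx0 := box_nonneg hx
  have hneg : Wf G x < 0 := (hmin w hwK).trans_lt hcon
  have hk : ∀ v, 0 < x v → Wf G x < Wf G (kill G v x) := by
    intro v hv
    by_contra hle
    push Not at hle
    have h1 := hmin2 _ (kill_mem_box G hx v) hle
    exact absurd (sum_kill_lt G hx0 hv) (not_lt.2 h1)
  have h1 : ∀ v, 0 < x v → qq G x v ≤ dpot G ph (fun L => -(uu L)) x v := by
    intro v hv
    have h2 := left_deriv_nonpos hv (hasDerivWithinAt_Wf G hx0 v) (fun y hy hy2 => by
      rw [Function.update_eq_self]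
      exact hmin _ (update_mem_box hx hy hy2))
    linarith
  have hlog : ∀ v, -Real.log (qq G x v) =
      Real.log (Z G x) - Real.log (Z G (kill G v x)) := by
    intro v
    rw [qq, Real.log_div (Z_pos G (kill_nonneg G hx0 v)).ne' (Z_pos G hx0).ne']
    ring
  have h2 : ∀ v, 0 < x v → -Real.log (qq G x v) < Binf G x - Binf G (kill G v x) := by
    intro v hv
    have := hk v hv
    rw [Wf, Wf] at this
    rw [hlog]
    linarith
  have h3 := static_sssz G hx0 h1 (fun v hv => (h2 v hv).le)
  by_cases hall : ∀ v, ¬ 0 < x v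
  · have hx1 : x = 0 := by
      funext v
      exact le_antisymm (not_lt.1 (hall v)) (hx0 v)
    have : Wf G x = 0 := by
      rw [hx1, Wf, Binf, pot, Z]
      have h4 : ∀ I ∈ indep G, (∏ v ∈ I, (0 : V → ℝ) v) = if I = ∅ then 1 else 0 := by
        intro I _
        split_ifs with h
        · rw [h]; simp
        · obtain ⟨v, hv⟩ := Finset.nonempty_iff_ne_empty.2 h
          exact prod_eq_zero hv rfl
      rw [sum_congr rfl h4]
      simp [empty_mem_indep G]
    linarith
  · push Not at hall
    obtain ⟨v, hv⟩ := hall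
    have h4 := h3 v hv
    have h5 := h2 v hv
    rw [h4.1] at h5
    linarith [h4.2]

/-- equality in the weighted lower bound forces `q = g` -/
lemma Wf_eq_zero {w : V → ℝ} (hw : ∀ v, 0 ≤ w v) (h0 : Wf G w = 0) :
    ∀ v, 0 < w v → qq G w v = gg (Lw G w v) := by
  have hwK : w ∈ Set.Icc (0 : V → ℝ) w := ⟨fun v => hw v, le_rfl⟩
  have h1 : ∀ v, 0 < w v → qq G w v ≤ dpot G ph (fun L => -(uu L)) w v := by
    intro v hv
    have h2 := left_deriv_nonpos hv (hasDerivWithinAt_Wf G hw v) (fun y hy hy2 => by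
      rw [Function.update_eq_self, h0]
      exact Wf_nonneg G (box_nonneg (update_mem_box hwK hy hy2)))
    linarith
  have h2 : ∀ v, 0 < w v → -Real.log (qq G w v) ≤ Binf G w - Binf G (kill G v w) := by
    intro v _
    have h3 := Wf_nonneg G (kill_nonneg G hw v)
    rw [Wf] at h3 h0
    rw [qq, Real.log_div (Z_pos G (kill_nonneg G hw v)).ne' (Z_pos G hw).ne']
    linarith
  intro v hv
  exact (static_sssz G hw h1 h2 v hv).1

end Pool.Agent.Helper65.HC
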