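import Pool.Agent.Helper65.HC.Fun

/-!
# One variable functions for the quadratic lower bound of `log Z`
-/

namespace Pool.Agent.Helper65.HC

open Set

/-- `√u(L)`, continuously extended by `√(1/2)` at `L = 0` -/
noncomputable def ff (L : ℝ) : ℝ := if L = 0 then Real.sqrt (1 / 2) else Real.sqrt (uu L)

/-- `2φ - g` -/
noncomputable def GG (L : ℝ) : ℝ := 2 * ph L - gg L

lemma hl_le {L : ℝ} (h : 0 ≤ L) : hl L ≤ L ^ 2 / 2 := by
  have key : MonotoneOn (fun L : ℝ => L ^ 2 / 2 - hl L) (Ici 0) := by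
    have hd : ∀ x : ℝ, 0 ≤ x → HasDerivAt (fun L : ℝ => L ^ 2 / 2 - hl L)
        (x - x * gg x ^ 2) x := by
      intro x hx
      refine (((hasDerivAt_pow 2 x).div_const 2).sub (hasDerivAt_hl hx)).congr_deriv ?_
      norm_num
    refine monotoneOn_of_deriv_nonneg (convex_Ici 0) ?_ ?_ ?_
    · exact fun x hx => (hd x hx).continuousAt.continuousWithinAt
    · intro x hx
      rw [interior_Ici] at hx
      exact (hd x (le_of_lt hx)).differentiableAt.differentiableWithinAt
    · intro x hx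
      rw [interior_Ici] at hx
      have hx' : (0 : ℝ) < x := hx
      rw [(hd x hx'.le).deriv]
      have h1 := gg_pos hx'.le
      have h2 := gg_le_one hx'.le
      have h3 : gg x ^ 2 ≤ 1 := by nlinarith
      nlinarith
  have := key (mem_Ici.2 le_rfl) (mem_Ici.2 h) h
  simp [hl] at this
  unfold hl
  linarith

lemma uu_le_half {L : ℝ} (h : 0 < L) : uu L ≤ 1 / 2 := by
  unfold uu
  rw [div_le_iff₀ (by positivity)]
  have := hl_le h.le
  linarith

lemma half_le_uu {L : ℝ} (h : 0 < L) : gg L ^ 2 / 2 < uu L := by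
  unfold uu gg
  rw [lt_div_iff₀ (by positivity)]
  have := sq_lt_two_hl h
  rw [div_pow] at this
  rw [div_pow]
  have e : (1 : ℝ) ^ 2 / (1 + L) ^ 2 / 2 * L ^ 2 = (L ^ 2 / (1 + L) ^ 2) / 2 := by ring
  rw [e]
  linarith

lemma ff_pos {L : ℝ} (h : 0 ≤ L) : 0 < ff L := by
  rw [ff]
  split_ifs with h0
  · exact Real.sqrt_pos.2 (by norm_num)
  · exact Real.sqrt_pos.2 (uu_pos (lt_of_le_of_ne h (Ne.symm h0)))

lemma ff_sq {L : ℝ} (h : 0 < L) : ff L ^ 2 = uu L := by
  rw [ff, if_neg h.ne', Real.sq_sqrt (uu_pos h).le]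

lemma ff_le {L : ℝ} (h : 0 ≤ L) : ff L ≤ Real.sqrt (1 / 2) := by
  rw [ff]
  split_ifs with h0
  · exact le_rfl
  · exact Real.sqrt_le_sqrt (uu_le_half (lt_of_le_of_ne h (Ne.symm h0)))

lemma hasDerivAt_uu {x : ℝ} (hx : 0 < x) :
    HasDerivAt uu (-((2 * uu x - gg x ^ 2) / x)) x := by
  have h1 := (hasDerivAt_hl hx.le).div (hasDerivAt_pow 2 x) (by positivity)
  refine h1.congr_deriv ?_
  unfold gg uu
  have : (1 : ℝ) + x ≠ 0 := by linarith
  field_simp
  ring

lemma hasDerivAt_ff {x : ℝ} (hx : 0 < x) :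
    HasDerivAt ff (-((2 * uu x - gg x ^ 2) / (2 * x * ff x))) x := by
  have h1 := (hasDerivAt_uu hx).sqrt (uu_pos hx).ne'
  have h2 : ff =ᶠ[nhds x] fun y => Real.sqrt (uu y) := by
    filter_upwards [lt_mem_nhds hx] with y hy
    rw [ff, if_neg hy.ne']
  refine (h1.congr_of_eventuallyEq h2).congr_deriv ?_
  rw [ff, if_neg hx.ne']
  have := (Real.sqrt_pos.2 (uu_pos hx)).ne'
  field_simp

lemma continuousAt_ff {x : ℝ} (hx : 0 < x) : ContinuousAt ff x := (hasDerivAt_ff hx).continuousAt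

lemma continuousWithinAt_ff_zero : ContinuousWithinAt ff (Ici 0) 0 := by
  have h0 : ff 0 = Real.sqrt (1 / 2) := by rw [ff, if_pos rfl]
  have hlow : Filter.Tendsto (fun L : ℝ => Real.sqrt (gg L ^ 2 / 2)) (nhdsWithin 0 (Ici 0))
      (nhds (Real.sqrt (1 / 2))) := by
    have h1 : ContinuousAt (fun L : ℝ => Real.sqrt (gg L ^ 2 / 2)) 0 :=
      (((continuousAt_gg le_rfl).pow 2).div_const 2).sqrt
    have h2 : Real.sqrt (gg 0 ^ 2 / 2) = Real.sqrt (1 / 2) := by simp [gg]
    have h3 := h1.tendsto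
    rw [h2] at h3
    exact h3.mono_left nhdsWithin_le_nhds
  rw [ContinuousWithinAt, h0]
  refine tendsto_of_tendsto_of_tendsto_of_le_of_le' hlow tendsto_const_nhds ?_ ?_
  · filter_upwards [self_mem_nhdsWithin] with L hL
    have hL' : (0 : ℝ) ≤ L := hL
    rw [ff]
    split_ifs with h
    · rw [h]; simp [gg]
    · exact Real.sqrt_le_sqrt (half_le_uu (lt_of_le_of_ne hL' (Ne.symm h))).le
  · filter_upwards [self_mem_nhdsWithin] with L hL
    exact ff_le hL

lemma continuousOn_ff : ContinuousOn ff (Ici 0) := by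
  intro x hx
  rcases (mem_Ici.1 hx).eq_or_lt with h | h
  · rw [← h]; exact continuousWithinAt_ff_zero
  · exact (continuousAt_ff h).continuousWithinAt

lemma hasDerivAt_GG {x : ℝ} (hx : 0 < x) : HasDerivAt GG (-(2 * uu x - gg x ^ 2)) x := by
  refine (((hasDerivAt_ph hx).const_mul 2).sub (hasDerivAt_gg hx.le)).congr_deriv ?_
  ring

lemma continuousOn_GG : ContinuousOn GG (Ici 0) :=
  (continuousOn_const.mul ph_continuousOn).sub gg_continuousOn

/-- `GG(X) - 2 X u(X) = g(X)` -/
lemma GG_sub {X : ℝ} (h : 0 < X) : GG X - 2 * (X * uu X) = gg X := by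
  rw [mul_uu h, GG]
  ring

/-- `-log g(X) = X g(X) + X² u(X)` -/
lemma neg_log_gg {X : ℝ} (h : 0 < X) : -Real.log (gg X) = X * gg X + X ^ 2 * uu X := by
  have h1 : X ^ 2 * uu X = X * ph X - X * gg X := by
    rw [pow_two, mul_assoc, mul_uu h]
    ring
  rw [h1, mul_ph, log_gg h.le]
  ring

/-- a left derivative at a minimum is nonpositive -/
lemma left_deriv_nonpos' {h : ℝ → ℝ} {d a b : ℝ} (hab : a < b)
    (hd : HasDerivWithinAt h d (Set.Iic b) b) (hm : ∀ x, a ≤ x → x ≤ b → h b ≤ h x) :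
    d ≤ 0 := by
  rw [hasDerivWithinAt_iff_tendsto_slope] at hd
  have hne : (nhdsWithin b (Set.Iic b \ {b})).NeBot := by
    rw [Set.Iic_sdiff_right]
    infer_instance
  refine le_of_tendsto hd ?_
  have h1 : ∀ᶠ x in nhdsWithin b (Set.Iic b \ {b}), a < x :=
    nhdsWithin_le_nhds (lt_mem_nhds hab)
  filter_upwards [h1, self_mem_nhdsWithin] with x hx hx2
  have hxb : x < b := lt_of_le_of_ne hx2.1 hx2.2
  rw [slope_def_field]
  have := hm x hx.le hxb.le
  exact div_nonpos_of_nonneg_of_nonpos (by linarith) (by linarith)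

/-- the one variable problem -/
lemma one_var {w R B x : ℝ} (hw : 0 < w) (hR : 0 ≤ R) (hB : R + w * Real.sqrt (1 / 2) < B * ff B)
    (hx : x ∈ Icc 0 B) (hB0 : 0 < B)
    (hmin : ∀ y ∈ Icc 0 B, -GG x + 2 * R * ff x + w * ff x ^ 2 ≤
      -GG y + 2 * R * ff y + w * ff y ^ 2) :
    0 < x ∧ R + w * ff x = x * ff x := by
  have hd : ∀ y, 0 < y → HasDerivAt (fun y => -GG y + 2 * R * ff y + w * ff y ^ 2)
      ((2 * uu y - gg y ^ 2) * (1 - (R + w * ff y) / (y * ff y))) y := by
    intro y hy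
    have hf := (ff_pos hy.le).ne'
    refine (((hasDerivAt_GG hy).neg.add ((hasDerivAt_ff hy).const_mul (2 * R))).add
      (((hasDerivAt_ff hy).pow 2).const_mul w)).congr_deriv ?_
    field_simp
    ring
  have hpos : ∀ y, 0 < y → 0 < 2 * uu y - gg y ^ 2 := by
    intro y hy
    have := half_le_uu hy
    linarith
  have hc : ContinuousOn (fun y => -GG y + 2 * R * ff y + w * ff y ^ 2) (Ici 0) :=
    ((continuousOn_GG.neg).add (continuousOn_const.mul continuousOn_ff)).add
      (continuousOn_const.mul (continuousOn_ff.pow 2))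
  have hx0 : 0 < x := by
    rcases hx.1.eq_or_lt with h | h
    · exfalso
      subst h
      have hm : 0 < min w B := lt_min hw hB0
      have hanti : StrictAntiOn (fun y => -GG y + 2 * R * ff y + w * ff y ^ 2)
          (Icc 0 (min w B)) := by
        refine strictAntiOn_of_deriv_neg (convex_Icc _ _) (hc.mono Icc_subset_Ici_self) ?_
        intro y hy
        rw [interior_Icc] at hy
        rw [(hd y hy.1).deriv]
        refine mul_neg_of_pos_of_neg (hpos y hy.1) ?_
        have hf := ff_pos hy.1.le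
        have hyw : y < w := hy.2.trans_le (min_le_left _ _)
        have h1 : 1 < (R + w * ff y) / (y * ff y) := by
          rw [lt_div_iff₀ (mul_pos hy.1 hf)]
          nlinarith
        linarith
      have h1 := hanti (mem_Icc.2 ⟨le_rfl, hm.le⟩) (mem_Icc.2 ⟨hm.le, le_rfl⟩) hm
      have h2 := hmin (min w B) ⟨hm.le, min_le_right _ _⟩
      simp only at h1
      linarith
    · exact h
  have hf := ff_pos hx0.le
  refine ⟨hx0, ?_⟩
  rcases hx.2.eq_or_lt with h | h
  · exfalso
    subst h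
    have h1 := left_deriv_nonpos' hx0 (hd x hx0).hasDerivWithinAt
      (fun y h1 h2 => hmin y ⟨h1, h2⟩)
    have h2 := hpos x hx0
    have h3 : 1 - (R + w * ff x) / (x * ff x) ≤ 0 := by
      by_contra h4
      push Not at h4
      have := mul_pos h2 h4
      linarith
    have h4 : 1 ≤ (R + w * ff x) / (x * ff x) := by linarith
    rw [le_div_iff₀ (mul_pos hx0 hf)] at h4
    have h5 := ff_le hx0.le
    nlinarith
  · have hloc : IsLocalMin (fun y => -GG y + 2 * R * ff y + w * ff y ^ 2) x := by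
      filter_upwards [Icc_mem_nhds hx0 h] with y hy
      exact hmin y hy
    have h1 := hloc.hasDerivAt_eq_zero (hd x hx0)
    have h2 := (hpos x hx0).ne'
    have h3 : 1 - (R + w * ff x) / (x * ff x) = 0 := by
      rcases mul_eq_zero.1 h1 with h4 | h4
      · exact absurd h4 h2
      · exact h4
    have h4 : (R + w * ff x) / (x * ff x) = 1 := by linarith
    rwa [div_eq_one_iff_eq (mul_pos hx0 hf).ne'] at h4

end Pool.Agent.Helper65.HC
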