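import Pool.Agent.Helper65.HC.QFun
import Pool.Agent.Helper65.HC.Pot

/-!
# The quadratic lower bound for `log Z`
-/

namespace Pool.Agent.Helper65.HC

open Finset Classical

universe u

variable {V : Type u} [Fintype V] (G : SimpleGraph V)

/-- `∑_v ∑_{x ∈ N[v]} c_v c_x` -/
noncomputable def QF (c : V → ℝ) : ℝ := ∑ v, ∑ x ∈ cn G v, c v * c x

/-- `∑_{x ∈ N[v]} c_x` -/
noncomputable def KK (c : V → ℝ) (v : V) : ℝ := ∑ x ∈ cn G v, c x

/-- the entries of the quadratic form -/
noncomputable def cf (w X : V → ℝ) : V → ℝ := fun v => w v * ff (X v)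

/-- the functional -/
noncomputable def Qw (w X : V → ℝ) : ℝ := (∑ v, w v * GG (X v)) - QF G (cf w X)

lemma QF_eq (c : V → ℝ) : QF G c = ∑ v, c v * KK G c v := by
  rw [QF]
  exact sum_congr rfl fun v _ => by rw [KK, mul_sum]

lemma KK_update (c : V → ℝ) (v x : V) (y : ℝ) :
    KK G (Function.update c v y) x = KK G c x + (if v ∈ cn G x then y - c v else 0) := by
  rw [KK, KK]
  split_ifs with h
  · rw [sum_update_of_mem h, ← sum_erase_add (cn G x) c h, ← sdiff_singleton_eq_erase]
    ring
  · rw [sum_update_of_notMem h, add_zero]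

lemma QF_update (c : V → ℝ) (v : V) (y : ℝ) :
    QF G (Function.update c v y) =
      QF G c + 2 * (y - c v) * KK G c v + (y - c v) ^ 2 := by
  have h1 : QF G (Function.update c v y) =
      (∑ x, Function.update c v y x * KK G c x) +
        ∑ x ∈ cn G v, Function.update c v y x * (y - c v) := by
    rw [QF_eq]
    have e : ∀ x, Function.update c v y x * KK G (Function.update c v y) x =
        Function.update c v y x * KK G c x +
          (if x ∈ cn G v then Function.update c v y x * (y - c v) else 0) := by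
      intro x
      rw [KK_update, mul_add, mul_ite, mul_zero]
      simp only [mem_cn_comm G (v := x) (u := v)]
    rw [sum_congr rfl fun x _ => e x, sum_add_distrib, ← sum_filter]
    congr 1
    refine sum_congr ?_ fun _ _ => rfl
    ext x
    simp
  have h2 : ∑ x, Function.update c v y x * KK G c x = QF G c + (y - c v) * KK G c v := by
    rw [QF_eq]
    have e : ∀ x, Function.update c v y x * KK G c x =
        c x * KK G c x + (if x = v then (y - c v) * KK G c v else 0) := by
      intro x
      by_cases hx : x = v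
      · subst hx
        rw [Function.update_self, if_pos rfl]
        ring
      · rw [Function.update_of_ne hx, if_neg hx, add_zero]
    rw [sum_congr rfl fun x _ => e x, sum_add_distrib]
    simp
  have h3 : ∑ x ∈ cn G v, Function.update c v y x * (y - c v) =
      (KK G c v + (y - c v)) * (y - c v) := by
    rw [← sum_mul]
    congr 1
    have := KK_update G c v v y
    rw [if_pos (self_mem_cn G v)] at this
    exact this
  rw [h1, h2, h3]
  ring

lemma bil_symm (a b : V → ℝ) : ∑ v, a v * KK G b v = ∑ v, b v * KK G a v := by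
  have h : ∀ a b : V → ℝ, ∑ v, a v * KK G b v = ∑ v, ∑ x ∈ cn G v, a v * b x :=
    fun a b => sum_congr rfl fun v _ => by rw [KK, mul_sum]
  rw [h, h, pair_sum_symm]
  exact sum_congr rfl fun v _ => sum_congr rfl fun x _ => mul_comm _ _

lemma KK_add (a b : V → ℝ) (v : V) : KK G (fun x => a x + b x) v = KK G a v + KK G b v := by
  rw [KK, KK, KK, sum_add_distrib]

lemma KK_le_sum {a : V → ℝ} (ha : ∀ v, 0 ≤ a v) (v : V) : KK G a v ≤ ∑ x, a x :=
  sum_le_sum_of_subset_of_nonneg (subset_univ _) fun x _ _ => ha x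

lemma KK_nonneg {a : V → ℝ} (ha : ∀ v, 0 ≤ a v) (v : V) : 0 ≤ KK G a v :=
  sum_nonneg fun x _ => ha x

lemma QF_kill {c : V → ℝ} (hc : ∀ v, 0 ≤ c v) (v : V) :
    QF G (kill G v c) + 2 * (∑ x ∈ cn G v, c x * KK G c x) - (KK G c v) ^ 2 ≤ QF G c := by
  set a : V → ℝ := fun x => if x ∈ cn G v then c x else 0 with ha
  set b : V → ℝ := kill G v c with hb
  have hab : ∀ x, c x = a x + b x := by
    intro x
    simp only [ha, hb, kill]
    split_ifs <;> simp
  have ha0 : ∀ x, 0 ≤ a x := by
    intro x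
    simp only [ha]
    split_ifs
    · exact hc x
    · exact le_rfl
  have hK : ∀ x, KK G c x = KK G a x + KK G b x := by
    intro x
    rw [← KK_add]
    congr 1
    funext y
    exact hab y
  have h1 : ∑ x ∈ cn G v, c x * KK G c x = ∑ x, a x * KK G c x := by
    simp only [ha, ite_mul, zero_mul, sum_ite_mem, univ_inter]
  have h2 : ∑ x, a x * KK G c x = QF G a + ∑ x, a x * KK G b x := by
    rw [QF_eq, ← sum_add_distrib]
    exact sum_congr rfl fun x _ => by rw [hK]; ring
  have h3 : QF G c = QF G a + 2 * (∑ x, a x * KK G b x) + QF G b := by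
    rw [QF_eq]
    have e : ∀ x, c x * KK G c x = a x * KK G a x + a x * KK G b x + b x * KK G a x +
        b x * KK G b x := by
      intro x
      rw [hK, hab]
      ring
    rw [sum_congr rfl fun x _ => e x, sum_add_distrib, sum_add_distrib, sum_add_distrib,
      bil_symm G b a, QF_eq, QF_eq]
    ring
  have h4 : QF G a ≤ (KK G c v) ^ 2 := by
    have h5 : ∑ x, a x = KK G c v := by
      simp only [ha, KK, sum_ite_mem, univ_inter]
    rw [QF_eq, ← h5, pow_two, sum_mul]
    exact sum_le_sum fun x _ => mul_le_mul_of_nonneg_left (KK_le_sum G ha0 x) (ha0 x)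
  rw [h1, h2, h3]
  linarith

lemma cf_kill (w X : V → ℝ) (v : V) : cf (kill G v w) X = kill G v (cf w X) := by
  funext x
  simp only [cf, kill]
  split_ifs <;> simp

lemma cf_update_w (w X : V → ℝ) (v : V) (y : ℝ) :
    cf (Function.update w v y) X = Function.update (cf w X) v (y * ff (X v)) := by
  funext x
  by_cases hx : x = v
  · subst hx; simp [cf]
  · simp [cf, hx]

lemma cf_update_X (w X : V → ℝ) (v : V) (y : ℝ) :
    cf w (Function.update X v y) = Function.update (cf w X) v (w v * ff y) := by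
  funext x
  by_cases hx : x = v
  · subst hx; simp [cf]
  · simp [cf, hx]

lemma Qw_update_w (w X : V → ℝ) (v : V) (y : ℝ) :
    Qw G (Function.update w v y) X = Qw G w X + (y - w v) * GG (X v) -
      2 * (y - w v) * ff (X v) * KK G (cf w X) v - (y - w v) ^ 2 * ff (X v) ^ 2 := by
  rw [Qw, Qw, cf_update_w, QF_update]
  have h : ∑ x, Function.update w v y x * GG (X x) = (∑ x, w x * GG (X x)) +
      (y - w v) * GG (X v) := by
    have e : ∀ x, Function.update w v y x * GG (X x) = w x * GG (X x) +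
        (if x = v then (y - w v) * GG (X v) else 0) := by
      intro x
      by_cases hx : x = v
      · subst hx; rw [Function.update_self, if_pos rfl]; ring
      · rw [Function.update_of_ne hx, if_neg hx, add_zero]
    rw [sum_congr rfl fun x _ => e x, sum_add_distrib]
    simp
  rw [h]
  simp only [cf]
  ring

lemma Qw_update_X (w X : V → ℝ) (v : V) (y : ℝ) :
    Qw G w (Function.update X v y) = Qw G w X + w v * (GG y - GG (X v)) -
      2 * w v * (ff y - ff (X v)) * KK G (cf w X) v - w v ^ 2 * (ff y - ff (X v)) ^ 2 := by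
  rw [Qw, Qw, cf_update_X, QF_update]
  have h : ∑ x, w x * GG (Function.update X v y x) = (∑ x, w x * GG (X x)) +
      w v * (GG y - GG (X v)) := by
    have e : ∀ x, w x * GG (Function.update X v y x) = w x * GG (X x) +
        (if x = v then w v * (GG y - GG (X v)) else 0) := by
      intro x
      by_cases hx : x = v
      · subst hx; rw [Function.update_self, if_pos rfl]; ring
      · rw [Function.update_of_ne hx, if_neg hx, add_zero]
    rw [sum_congr rfl fun x _ => e x, sum_add_distrib]
    simp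
  rw [h]
  simp only [cf]
  ring

lemma hasDerivAt_Qw (w X : V → ℝ) (v : V) :
    HasDerivAt (fun y => Qw G (Function.update w v y) X)
      (GG (X v) - 2 * ff (X v) * KK G (cf w X) v) (w v) := by
  have e : (fun y => Qw G (Function.update w v y) X) = fun y =>
      Qw G w X + (y - w v) * GG (X v) -
      2 * (y - w v) * ff (X v) * KK G (cf w X) v - (y - w v) ^ 2 * ff (X v) ^ 2 := by
    funext y
    exact Qw_update_w G w X v y
  rw [e]
  have h1 : HasDerivAt (fun y : ℝ => y - w v) 1 (w v) := (hasDerivAt_id _).sub_const _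
  refine ((((h1.mul_const (GG (X v))).const_add (Qw G w X)).sub
    (((h1.const_mul 2).mul_const (ff (X v))).mul_const (KK G (cf w X) v))).sub
    ((h1.pow 2).mul_const (ff (X v) ^ 2))).congr_deriv ?_
  simp

lemma continuousOn_Qw : ContinuousOn (fun p : (V → ℝ) × (V → ℝ) => Qw G p.1 p.2)
    {p | ∀ v, 0 ≤ p.2 v} := by
  have hX : ∀ v, ContinuousOn (fun p : (V → ℝ) × (V → ℝ) => p.2 v) {p | ∀ v, 0 ≤ p.2 v} :=
    fun v => ((continuous_apply v).comp continuous_snd).continuousOn
  have hw : ∀ v, ContinuousOn (fun p : (V → ℝ) × (V → ℝ) => p.1 v) {p | ∀ v, 0 ≤ p.2 v} :=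
    fun v => ((continuous_apply v).comp continuous_fst).continuousOn
  have hf : ∀ v, ContinuousOn (fun p : (V → ℝ) × (V → ℝ) => ff (p.2 v)) {p | ∀ v, 0 ≤ p.2 v} :=
    fun v => continuousOn_ff.comp (hX v) fun p hp => hp v
  have hG : ∀ v, ContinuousOn (fun p : (V → ℝ) × (V → ℝ) => GG (p.2 v)) {p | ∀ v, 0 ≤ p.2 v} :=
    fun v => continuousOn_GG.comp (hX v) fun p hp => hp v
  unfold Qw QF cf
  refine ContinuousOn.sub (continuousOn_finsetSum _ fun v _ => (hw v).mul (hG v)) ?_
  exact continuousOn_finsetSum _ fun v _ => continuousOn_finsetSum _ fun x _ =>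
    ((hw v).mul (hf v)).mul ((hw x).mul (hf x))

lemma mul_ff_eq {B : ℝ} (hB : 0 < B) : B * ff B = Real.sqrt (hl B) := by
  rw [ff, if_neg hB.ne', uu, Real.sqrt_div' _ (by positivity), Real.sqrt_sq hB.le]
  field_simp

lemma Z_zero : Z G (0 : V → ℝ) = 1 := by
  have h4 : ∀ I ∈ indep G, (∏ v ∈ I, (0 : V → ℝ) v) = if I = ∅ then 1 else 0 := by
    intro I _
    split_ifs with h
    · rw [h]; simp
    · obtain ⟨v, hv⟩ := Finset.nonempty_iff_ne_empty.2 h
      exact prod_eq_zero hv rfl
  rw [Z, sum_congr rfl h4]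
  simp [empty_mem_indep G]

/-- **The quadratic lower bound** for the free energy of the hard-core model. -/
theorem quad_sssz {w X : V → ℝ} (hw : ∀ v, 0 ≤ w v) (hX : ∀ v, 0 ≤ X v) :
    Qw G w X ≤ Real.log (Z G w) := by
  by_contra hcon
  push Not at hcon
  set W : ℝ := ∑ v, w v with hW
  have hW0 : 0 ≤ W := sum_nonneg fun v _ => hw v
  set s0 : ℝ := 2 * (W * Real.sqrt (1 / 2)) with hs0
  have hs00 : 0 ≤ s0 := by positivity
  set B : ℝ := (∑ v, X v) + Real.exp (s0 ^ 2 + 2) with hBdef
  have hXB : ∀ v, X v ≤ B := by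
    intro v
    have h1 : X v ≤ ∑ v, X v := single_le_sum (fun v _ => hX v) (mem_univ v)
    have h2 := Real.exp_pos (s0 ^ 2 + 2)
    linarith
  have hB0 : 0 < B := by
    have h1 : 0 ≤ ∑ v, X v := sum_nonneg fun v _ => hX v
    have h2 := Real.exp_pos (s0 ^ 2 + 2)
    linarith
  have hB1 : s0 < B * ff B := by
    rw [mul_ff_eq hB0]
    refine Real.lt_sqrt_of_sq_lt ?_
    have h1 : 0 ≤ ∑ v, X v := sum_nonneg fun v _ => hX v
    have h2 : s0 ^ 2 + 2 ≤ Real.log (1 + B) := by
      rw [Real.le_log_iff_exp_le (by linarith)]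
      linarith
    have h3 : B / (1 + B) ≤ 1 := by
      rw [div_le_one (by linarith)]
      linarith
    unfold hl
    linarith
  have hK : IsCompact (Set.Icc (0 : V → ℝ) w ×ˢ Set.Icc (0 : V → ℝ) (fun _ => B)) :=
    isCompact_Icc.prod isCompact_Icc
  have hc : ContinuousOn (fun p : (V → ℝ) × (V → ℝ) => Real.log (Z G p.1) - Qw G p.1 p.2)
      (Set.Icc (0 : V → ℝ) w ×ˢ Set.Icc (0 : V → ℝ) (fun _ => B)) := by
    refine ContinuousOn.sub ?_ ?_
    · exact (continuousOn_logZ G).comp continuous_fst.continuousOn fun p hp => box_nonneg hp.1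
    · exact (continuousOn_Qw G).mono fun p hp => box_nonneg hp.2
  obtain ⟨⟨w1, X1⟩, hx, hmin', hmin2'⟩ := exists_min_min hK
    ⟨(w, X), ⟨fun v => hw v, le_rfl⟩, fun v => hX v, fun v => hXB v⟩ hc
    (s := fun p => ∑ v, p.1 v) (by fun_prop)
  have hw1 : w1 ∈ Set.Icc (0 : V → ℝ) w := hx.1
  have hX1 : X1 ∈ Set.Icc (0 : V → ℝ) (fun _ => B) := hx.2
  have hw10 := box_nonneg hw1
  have hX10 := box_nonneg hX1
  have hmin : ∀ w' ∈ Set.Icc (0 : V → ℝ) w, ∀ X' ∈ Set.Icc (0 : V → ℝ) (fun _ => B),
      Real.log (Z G w1) - Qw G w1 X1 ≤ Real.log (Z G w') - Qw G w' X' :=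
    fun w' hw' X' hX' => hmin' (w', X') ⟨hw', hX'⟩
  have hneg : Real.log (Z G w1) - Qw G w1 X1 < 0 := by
    have := hmin w ⟨fun v => hw v, le_rfl⟩ X ⟨fun v => hX v, fun v => hXB v⟩
    linarith
  have hk : ∀ v, 0 < w1 v → Real.log (Z G w1) - Qw G w1 X1 <
      Real.log (Z G (kill G v w1)) - Qw G (kill G v w1) X1 := by
    intro v hv
    by_contra hle
    push Not at hle
    have h1 := hmin2' (kill G v w1, X1) ⟨kill_mem_box G hw1 v, hX1⟩ hle
    exact absurd (sum_kill_lt G hw10 hv) (not_lt.2 h1)
  set c : V → ℝ := cf w1 X1 with hcdef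
  have hc0 : ∀ v, 0 ≤ c v := fun v => mul_nonneg (hw10 v) (ff_pos (hX10 v)).le
  have hfix : ∀ v, 0 < w1 v → 0 < X1 v ∧ KK G c v = X1 v * ff (X1 v) := by
    intro v hv
    have hcv : c v = w1 v * ff (X1 v) := rfl
    have hR : 0 ≤ KK G c v - w1 v * ff (X1 v) := by
      rw [← hcv, sub_nonneg, KK]
      exact single_le_sum (fun x _ => hc0 x) (self_mem_cn G v)
    have hle1 : KK G c v ≤ W * Real.sqrt (1 / 2) := by
      refine (KK_le_sum G hc0 v).trans ?_
      rw [hW, sum_mul]
      exact sum_le_sum fun x _ => mul_le_mul (hw1.2 x) (ff_le (hX10 x)) (ff_pos (hX10 x)).le (hw x)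
    have hle2 : w1 v * Real.sqrt (1 / 2) ≤ W * Real.sqrt (1 / 2) := by
      refine mul_le_mul_of_nonneg_right ?_ (Real.sqrt_nonneg _)
      exact (hw1.2 v).trans (single_le_sum (fun v _ => hw v) (mem_univ v))
    have h1 := one_var (w := w1 v) (R := KK G c v - w1 v * ff (X1 v)) (B := B) (x := X1 v) hv hR
      (by
        have := mul_nonneg hv.le (ff_pos (hX10 v)).le
        linarith) ⟨hX10 v, hX1.2 v⟩ hB0 (by
        intro y hy
        have h2 : Function.update X1 v y ∈ Set.Icc (0 : V → ℝ) (fun _ => B) := by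
          constructor
          · intro x
            by_cases hxv : x = v
            · subst hxv; rw [Function.update_self]; exact hy.1
            · rw [Function.update_of_ne hxv]; exact hX1.1 x
          · intro x
            by_cases hxv : x = v
            · subst hxv; rw [Function.update_self]; exact hy.2
            · rw [Function.update_of_ne hxv]; exact hX1.2 x
        have h3 := hmin w1 hw1 _ h2
        rw [Qw_update_X, ← hcdef] at h3
        have h4 : w1 v * (GG y - GG (X1 v) - 2 * (ff y - ff (X1 v)) * KK G c v -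
            w1 v * (ff y - ff (X1 v)) ^ 2) ≤ 0 := by
          linarith
        have h5 : GG y - GG (X1 v) - 2 * (ff y - ff (X1 v)) * KK G c v -
            w1 v * (ff y - ff (X1 v)) ^ 2 ≤ 0 := by
          by_contra h6
          push Not at h6
          have := mul_pos hv h6
          linarith
        linarith)
    refine ⟨h1.1, ?_⟩
    have := h1.2
    linarith
  have hGG : ∀ v, 0 < w1 v → GG (X1 v) - 2 * ff (X1 v) * KK G c v = gg (X1 v) := by
    intro v hv
    obtain ⟨h1, h2⟩ := hfix v hv
    rw [h2, ← GG_sub h1, ← ff_sq h1]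
    ring
  have hq : ∀ v, 0 < w1 v → qq G w1 v ≤ gg (X1 v) := by
    intro v hv
    have h1 := left_deriv_nonpos hv (((hasDerivAt_logZ G hw10 v).sub
      (hasDerivAt_Qw G w1 X1 v)).hasDerivWithinAt (s := Set.Iic (w1 v))) (fun y hy hy2 => by
        have := hmin _ (update_mem_box hw1 hy hy2) X1 hX1
        simpa [Function.update_eq_self] using this)
    rw [hGG v hv] at h1
    linarith
  have hlog : ∀ v, -Real.log (qq G w1 v) =
      Real.log (Z G w1) - Real.log (Z G (kill G v w1)) := by
    intro v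
    rw [qq, Real.log_div (Z_pos G (kill_nonneg G hw10 v)).ne' (Z_pos G hw10).ne']
    ring
  have hmain : ∀ v, 0 < w1 v →
      X1 v * gg (X1 v) < KK G (fun x => w1 x * gg (X1 x)) v := by
    intro v hv
    obtain ⟨h1, h2⟩ := hfix v hv
    have h3 := hk v hv
    have h4 : Qw G w1 X1 - Qw G (kill G v w1) X1 ≤
        KK G (fun x => w1 x * gg (X1 x)) v + (KK G c v) ^ 2 := by
      have h5 := QF_kill G hc0 v
      have h6 : (∑ x, w1 x * GG (X1 x)) - ∑ x, kill G v w1 x * GG (X1 x) =
          ∑ x ∈ cn G v, w1 x * GG (X1 x) := by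
        rw [← sum_sub_distrib, ← sum_filter_add_sum_filter_not univ (fun x => x ∈ cn G v)]
        rw [sum_eq_zero (s := univ.filter (fun x => ¬ x ∈ cn G v)), add_zero]
        · refine sum_congr ?_ fun x hx => ?_
          · ext x; simp
          · rw [kill, if_pos hx]; ring
        · intro x hx
          have : x ∉ cn G v := (mem_filter.1 hx).2
          rw [kill, if_neg this]
          ring
      have h7 : KK G (fun x => w1 x * gg (X1 x)) v =
          (∑ x ∈ cn G v, w1 x * GG (X1 x)) - 2 * ∑ x ∈ cn G v, c x * KK G c x := by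
        rw [KK, mul_sum, ← sum_sub_distrib]
        refine sum_congr rfl fun x _ => ?_
        have hcx : c x = w1 x * ff (X1 x) := rfl
        rcases (hw10 x).eq_or_lt with h8 | h8
        · rw [hcx, ← h8]; ring
        · rw [← hGG x h8, hcx]; ring
      rw [Qw, Qw, cf_kill, ← hcdef, h7]
      linarith
    have h8 : -Real.log (gg (X1 v)) ≤ -Real.log (qq G w1 v) := by
      have := Real.log_le_log (qq_pos G hw10 v) (hq v hv)
      linarith
    rw [neg_log_gg h1, hlog] at h8
    have h9 : (KK G c v) ^ 2 = X1 v ^ 2 * uu (X1 v) := by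
      rw [h2, mul_pow, ff_sq h1]
    rw [h9] at h4
    linarith
  have hle : ∀ v, w1 v * gg (X1 v) * KK G c v ≤ c v * KK G (fun x => w1 x * gg (X1 x)) v := by
    intro v
    have hcv : c v = w1 v * ff (X1 v) := rfl
    rcases (hw10 v).eq_or_lt with h | h
    · rw [hcv, ← h]; simp
    · obtain ⟨h1, h2⟩ := hfix v h
      rw [h2, hcv]
      have h3 := hmain v h
      have h4 : 0 < w1 v * ff (X1 v) := mul_pos h (ff_pos h1.le)
      nlinarith
  have hlt : ∀ v, 0 < w1 v →
      w1 v * gg (X1 v) * KK G c v < c v * KK G (fun x => w1 x * gg (X1 x)) v := by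
    intro v h
    have hcv : c v = w1 v * ff (X1 v) := rfl
    obtain ⟨h1, h2⟩ := hfix v h
    rw [h2, hcv]
    have h3 := hmain v h
    have h4 : 0 < w1 v * ff (X1 v) := mul_pos h (ff_pos h1.le)
    nlinarith
  have hsym := bil_symm G c (fun x => w1 x * gg (X1 x))
  by_cases hall : ∀ v, ¬ 0 < w1 v
  · have hw1z : w1 = 0 := by
      funext v
      exact le_antisymm (not_lt.1 (hall v)) (hw10 v)
    rw [hw1z, Z_zero, Qw, QF] at hneg
    simp [cf] at hneg
  · push Not at hall
    obtain ⟨v, hv⟩ := hall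
    have := sum_lt_sum (fun v _ => hle v) ⟨v, mem_univ v, hlt v hv⟩
    linarith

end Pool.Agent.Helper65.HC
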