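import Pool.Agent.Helper65.HC.Pot

/-!
# Reduction of the Caro-Wei bound for the hard-core model to a static lemma

The static lemma is a statement about weights only.  A hypothetical counterexample gives weights
`w`, a threshold `T` and numbers `y v` (the probabilities that `N[v]` is free) with `Crit G T w y`.
-/

namespace Pool.Agent.Helper65.HC

open Finset Classical

universe u

variable {V : Type u} [Fintype V] (G : SimpleGraph V)

/-- `∑ w φ(min(L,T))` -/
noncomputable def BT (T : ℝ) (w : V → ℝ) : ℝ := pot G (pT T) w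

/-- the flattened potential `∑ w σ(min(L,T))`, `σ = g - a(T) φ` -/
noncomputable def Phi (T : ℝ) (w : V → ℝ) : ℝ := pot G (sg T) w

/-- its (left) partial derivative -/
noncomputable def dPhi (T : ℝ) (w : V → ℝ) (v : V) : ℝ :=
  sg T (Lw G w v) - ∑ u ∈ cn G v, w u * tt T (Lw G w u)

/-- the functional `μ - a(T) log Z - Φ_T` -/
noncomputable def PT (T : ℝ) (w : V → ℝ) : ℝ :=
  mu G w - aa T * Real.log (Z G w) - Phi G T w

/-- `log Z - B_T` -/
noncomputable def RT (T : ℝ) (w : V → ℝ) : ℝ := Real.log (Z G w) - BT G T w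

/-- The static conditions satisfied at a hypothetical minimal counterexample. -/
structure Crit (T : ℝ) (w y : V → ℝ) : Prop where
  w_nonneg : ∀ v, 0 ≤ w v
  w_ne : ∃ v, 0 < w v
  y_pos : ∀ v, 0 < y v
  y_le : ∀ v, y v ≤ 1
  l1 : ∀ v, 1 ≤ y v + ∑ u ∈ cn G v, w u * y u
  l2 : ∀ v x, G.Adj v x → (1 + w v) * y v + w x * y x ≤ 1
  neg : ∀ v, 0 < w v →
    y v * (1 - aa T + aa T * Real.log (y v) + Phi G T (kill G v w) - Phi G T w)
      - dPhi G T w v < 0

/-- `m` maximises `B_T` over the box `[0,w]`. -/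
structure BoxMax (T : ℝ) (w m : V → ℝ) : Prop where
  nonneg : ∀ v, 0 ≤ m v
  le : ∀ v, m v ≤ w v
  max : ∀ m' : V → ℝ, (∀ v, 0 ≤ m' v) → (∀ v, m' v ≤ w v) → BT G T m' ≤ BT G T m

lemma dPhi_eq (T : ℝ) (w : V → ℝ) (v : V) :
    dPhi G T w v = dpot G (sg T) (fun L => -(tt T L)) w v := by
  rw [dPhi, dpot]
  simp only [mul_neg, sum_neg_distrib]
  ring

/-- KKT conditions for the box maximiser. -/
lemma BoxMax.inner {T : ℝ} (hT : 0 < T) {w m : V → ℝ} (h : BoxMax G T w m) {v : V}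
    (hv : 0 < m v) :
    ∑ u ∈ cn G v, m u * (if Lw G m u ≤ T then uu (Lw G m u) else 0) ≤ pT T (Lw G m v) := by
  have hd := hasDerivWithinAt_pot G hI_Iic (f := pT T)
    (f' := fun L => -(if L ≤ T then uu L else 0)) (fun L hL => by
      have h1 : ContinuousAt (fun L => min L T) L := by fun_prop
      have h2 : ContinuousAt ph (min L T) := continuousAt_ph (le_min hL hT.le)
      exact (ContinuousAt.comp (f := fun L => min L T) h2 h1).continuousWithinAt)
    (fun L hL => hasDerivWithinAt_pT_left hL) h.nonneg v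
  have h3 := left_deriv_nonneg hv hd (fun x hx hx2 => by
    rw [Function.update_eq_self]
    have hbox : m ∈ Set.Icc (0 : V → ℝ) m := ⟨fun v => h.nonneg v, le_rfl⟩
    have := update_mem_box hbox hx hx2
    exact h.max _ (fun u => this.1 u) (fun u => (this.2 u).trans (h.le u)))
  rw [dpot] at h3
  simp only [mul_neg, sum_neg_distrib] at h3
  linarith

lemma BoxMax.outer {T : ℝ} (hT : 0 < T) {w m : V → ℝ} (h : BoxMax G T w m) {v : V}
    (hv : m v < w v) :
    pT T (Lw G m v) ≤ ∑ u ∈ cn G v, m u * (if Lw G m u < T then uu (Lw G m u) else 0) := by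
  have hd := hasDerivWithinAt_pot G hI_Ici (f := pT T)
    (f' := fun L => -(if L < T then uu L else 0)) (fun L hL => by
      have h1 : ContinuousAt (fun L => min L T) L := by fun_prop
      have h2 : ContinuousAt ph (min L T) := continuousAt_ph (le_min hL hT.le)
      exact (ContinuousAt.comp (f := fun L => min L T) h2 h1).continuousWithinAt)
    (fun L hL => hasDerivWithinAt_pT_right hL) h.nonneg v
  have h3 := right_deriv_nonpos hv hd (fun x hx hx2 => by
    rw [Function.update_eq_self]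
    refine h.max _ (fun u => ?_) (fun u => ?_)
    · by_cases hu : u = v
      · subst hu; rw [Function.update_self]; exact (h.nonneg u).trans hx
      · rw [Function.update_of_ne hu]; exact h.nonneg u
    · by_cases hu : u = v
      · subst hu; rw [Function.update_self]; exact hx2
      · rw [Function.update_of_ne hu]; exact h.le u)
  rw [dpot] at h3
  simp only [mul_neg, sum_neg_distrib] at h3
  linarith

lemma PT_eq (T : ℝ) (w : V → ℝ) :
    PT G T w = (mu G w - ∑ v, w v * gg (min (Lw G w v) T)) - aa T * RT G T w := by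
  rw [PT, RT, Phi, BT, pot, pot]
  have : ∑ v, w v * sg T (Lw G w v) = (∑ v, w v * gg (min (Lw G w v) T)) -
      aa T * ∑ v, w v * pT T (Lw G w v) := by
    rw [mul_sum, ← sum_sub_distrib]
    exact sum_congr rfl fun v _ => by rw [sg, sM, pT]; ring
  rw [this]
  ring

lemma continuousOn_PT :
    ContinuousOn (fun p : ℝ × (V → ℝ) => PT G p.1 p.2)
      {p : ℝ × (V → ℝ) | 0 < p.1 ∧ ∀ v, 0 ≤ p.2 v} := by
  unfold PT Phi pot sg sM
  have hmaps : Set.MapsTo (fun p : ℝ × (V → ℝ) => p.2)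
      {p : ℝ × (V → ℝ) | 0 < p.1 ∧ ∀ v, 0 ≤ p.2 v} {w : V → ℝ | ∀ v, 0 ≤ w v} :=
    fun p hp => hp.2
  have hmu : ContinuousOn (fun p : ℝ × (V → ℝ) => mu G p.2)
      {p : ℝ × (V → ℝ) | 0 < p.1 ∧ ∀ v, 0 ≤ p.2 v} :=
    (continuousOn_mu G).comp continuous_snd.continuousOn hmaps
  have hlog : ContinuousOn (fun p : ℝ × (V → ℝ) => Real.log (Z G p.2))
      {p : ℝ × (V → ℝ) | 0 < p.1 ∧ ∀ v, 0 ≤ p.2 v} :=
    (continuousOn_logZ G).comp continuous_snd.continuousOn hmaps
  have haa : ContinuousOn (fun p : ℝ × (V → ℝ) => aa p.1)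
      {p : ℝ × (V → ℝ) | 0 < p.1 ∧ ∀ v, 0 ≤ p.2 v} :=
    aa_continuousOn.comp continuous_fst.continuousOn fun p hp => hp.1
  refine (hmu.sub (haa.mul hlog)).sub (continuousOn_finsetSum _ fun v _ => ?_)
  have hmin : ContinuousOn (fun p : ℝ × (V → ℝ) => min (Lw G p.2 v) p.1)
      {p : ℝ × (V → ℝ) | 0 < p.1 ∧ ∀ v, 0 ≤ p.2 v} := by
    exact (((continuous_Lw G v).comp continuous_snd).min continuous_fst).continuousOn
  have hmm : Set.MapsTo (fun p : ℝ × (V → ℝ) => min (Lw G p.2 v) p.1)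
      {p : ℝ × (V → ℝ) | 0 < p.1 ∧ ∀ v, 0 ≤ p.2 v} (Set.Ici 0) :=
    fun p hp => le_min (Lw_nonneg G hp.2 v) hp.1.le
  have h1 : ContinuousOn (fun p : ℝ × (V → ℝ) => p.2 v)
      {p : ℝ × (V → ℝ) | 0 < p.1 ∧ ∀ v, 0 ≤ p.2 v} :=
    ((continuous_apply v).comp continuous_snd).continuousOn
  exact h1.mul ((gg_continuousOn.comp hmin hmm).sub (haa.mul (ph_continuousOn.comp hmin hmm)))

lemma continuousAt_RT {w : V → ℝ} (hw : ∀ v, 0 ≤ w v) {T : ℝ} (hT : 0 < T) :
    ContinuousAt (fun T => RT G T w) T := by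
  unfold RT BT pot pT
  refine ContinuousAt.sub continuousAt_const (tendsto_finsetSum _ fun v _ => ?_)
  refine ContinuousAt.mul continuousAt_const ?_
  have h1 : ContinuousAt (fun T => min (Lw G w v) T) T := by fun_prop
  have h2 : ContinuousAt ph (min (Lw G w v) T) :=
    continuousAt_ph (le_min (Lw_nonneg G hw v) hT.le)
  exact ContinuousAt.comp (f := fun T => min (Lw G w v) T) h2 h1

/-- comparison of `P` at two thresholds -/
lemma PT_compare {w : V → ℝ} (hw : ∀ v, 0 ≤ w v) {T T' : ℝ} (hT' : 0 < T') (h : T' ≤ T) :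
    PT G T' w + (aa T' - aa T) * RT G T' w ≤ PT G T w := by
  have h1 : Phi G T w ≤ ∑ v, w v * sM (aa T) (min (Lw G w v) T') := by
    rw [Phi, pot]
    refine sum_le_sum fun v _ => mul_le_mul_of_nonneg_left ?_ (hw v)
    exact sM_compare hT' h (Lw_nonneg G hw v)
  have h2 : ∑ v, w v * sM (aa T) (min (Lw G w v) T') =
      Phi G T' w + (aa T' - aa T) * BT G T' w := by
    rw [Phi, BT, pot, pot, mul_sum, ← sum_add_distrib]
    exact sum_congr rfl fun v _ => by rw [sg, sM, sM, pT]; ring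
  rw [PT, PT, RT]
  linarith

lemma hasDerivWithinAt_PT {T : ℝ} (hT : 0 < T) {w : V → ℝ} (hw : ∀ v, 0 ≤ w v) (v : V) :
    HasDerivWithinAt (fun x => PT G T (Function.update w v x))
      (qq G w v * (1 + mu G (kill G v w) - mu G w) - aa T * qq G w v - dPhi G T w v)
      (Set.Iic (w v)) (w v) := by
  rw [dPhi_eq]
  refine ((hasDerivAt_mu G hw v).hasDerivWithinAt.sub
    ((hasDerivAt_logZ G hw v).hasDerivWithinAt.const_mul (aa T))).sub ?_
  refine hasDerivWithinAt_pot G hI_Iic (fun L hL => ?_) (fun L hL => hasDerivWithinAt_sg hT hL)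
    hw v
  have h1 : ContinuousAt (fun L => min L T) L := by fun_prop
  have h2 : ContinuousAt (sM (aa T)) (min L T) := continuousAt_sM _ (le_min hL hT.le)
  exact (ContinuousAt.comp (f := fun L => min L T) h2 h1).continuousWithinAt

/-- The static conditions at a minimiser. -/
theorem crit_of_min {T0 Tm T : ℝ} {w0 w : V → ℝ} (hT0 : 0 < T0)
    (hT : T ∈ Set.Icc T0 Tm) (hw : w ∈ Set.Icc (0 : V → ℝ) w0) (hneg : PT G T w < 0)
    (hmin : ∀ T' ∈ Set.Icc T0 Tm, ∀ w' ∈ Set.Icc (0 : V → ℝ) w0, PT G T w ≤ PT G T' w')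
    (hmin2 : ∀ w' ∈ Set.Icc (0 : V → ℝ) w0, PT G T w' ≤ PT G T w → ∑ v, w v ≤ ∑ v, w' v) :
    Crit G T w (qq G w) := by
  have hw0 := box_nonneg hw
  have hTpos : 0 < T := hT0.trans_le hT.1
  have hzero : PT G T (0 : V → ℝ) = 0 := by
    have h4 : ∀ I ∈ indep G, (∏ v ∈ I, (0 : V → ℝ) v) = if I = ∅ then 1 else 0 := by
      intro I _
      split_ifs with h
      · rw [h]; simp
      · obtain ⟨v, hv⟩ := Finset.nonempty_iff_ne_empty.2 h
        exact prod_eq_zero hv rfl
    have hZ : Z G (0 : V → ℝ) = 1 := by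
      rw [Z, sum_congr rfl h4]
      simp [empty_mem_indep G]
    have hmu : mu G (0 : V → ℝ) = 0 := by
      rw [mu_eq]
      simp
    rw [PT, hZ, hmu, Phi, pot]
    simp
  have hk : ∀ v, 0 < w v → PT G T w < PT G T (kill G v w) := by
    intro v hv
    by_contra hle
    push Not at hle
    have h1 := hmin2 _ (kill_mem_box G hw v) hle
    exact absurd (sum_kill_lt G hw0 hv) (not_lt.2 h1)
  refine ⟨hw0, ?_, qq_pos G hw0, qq_le_one G hw0, L1 G hw0, fun v x h => L2 G hw0 h, ?_⟩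
  · by_contra hall
    push Not at hall
    have : w = 0 := by
      funext v
      exact le_antisymm (hall v) (hw0 v)
    rw [this, hzero] at hneg
    exact lt_irrefl _ hneg
  · intro v hv
    have h2 := left_deriv_nonpos hv (hasDerivWithinAt_PT G hTpos hw0 v) (fun y hy hy2 => by
      rw [Function.update_eq_self]
      exact hmin _ hT _ (update_mem_box hw hy hy2))
    have hlog : Real.log (qq G w v) =
        Real.log (Z G (kill G v w)) - Real.log (Z G w) := by
      rw [qq, Real.log_div (Z_pos G (kill_nonneg G hw0 v)).ne' (Z_pos G hw0).ne']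
    have h3 := hk v hv
    have hq := qq_pos G hw0 v
    have h4 : 0 < qq G w v * (PT G T (kill G v w) - PT G T w) := mul_pos hq (by linarith)
    have e : qq G w v * (1 - aa T + aa T * Real.log (qq G w v) + Phi G T (kill G v w)
        - Phi G T w) - dPhi G T w v =
        (qq G w v * (1 + mu G (kill G v w) - mu G w) - aa T * qq G w v - dPhi G T w v) -
          qq G w v * (PT G T (kill G v w) - PT G T w) := by
      rw [hlog, PT, PT]
      ring
    rw [e]
    linarith

/-- At a minimiser with `R_T ≤ 0` there is a deficit. -/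
theorem deficit_of_neg {T : ℝ} {w : V → ℝ} (hT : 0 < T) (hneg : PT G T w < 0)
    (hR : RT G T w ≤ 0) :
    ∑ v, w v * qq G w v < ∑ v, w v * gg (min (Lw G w v) T) := by
  have h1 := PT_eq G T w
  rw [mu_eq] at h1
  have h2 : aa T * RT G T w ≤ 0 := mul_nonpos_of_nonneg_of_nonpos (aa_pos hT).le hR
  linarith

/-- **Main reduction**: if the static lemma holds at `T = T0` and, for `T > T0`, whenever the box
maximiser of `B_T` has a hub, then `P_T ≥ 0` for all weights and all `T ≥ T0`. -/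
theorem PT_nonneg {T0 : ℝ} (hT0 : 0 < T0)
    (base : ∀ w y : V → ℝ, Crit G T0 w y → False)
    (main : ∀ (T : ℝ) (w y m : V → ℝ), T0 < T → Crit G T w y →
      (∑ v, w v * y v < ∑ v, w v * gg (min (Lw G w v) T)) → BoxMax G T w m →
      (∃ v, 0 < m v ∧ T ≤ Lw G m v) → False)
    {w0 : V → ℝ} {Tm : ℝ} :
    ∀ T ∈ Set.Icc T0 Tm, ∀ w ∈ Set.Icc (0 : V → ℝ) w0, 0 ≤ PT G T w := by
  by_contra hcon
  push Not at hcon
  obtain ⟨T1, hT1, w1, hw1, hneg1⟩ := hcon
  have hK : IsCompact (Set.Icc T0 Tm ×ˢ Set.Icc (0 : V → ℝ) w0) :=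
    isCompact_Icc.prod isCompact_Icc
  have hc : ContinuousOn (fun p : ℝ × (V → ℝ) => PT G p.1 p.2)
      (Set.Icc T0 Tm ×ˢ Set.Icc (0 : V → ℝ) w0) := by
    refine (continuousOn_PT G).mono ?_
    intro p hp
    exact ⟨hT0.trans_le hp.1.1, box_nonneg hp.2⟩
  obtain ⟨⟨T, w⟩, hx, hmin', hmin2'⟩ := exists_min_min hK ⟨(T1, w1), hT1, hw1⟩ hc
    (s := fun p => ∑ v, p.2 v) (by fun_prop)
  have hT : T ∈ Set.Icc T0 Tm := hx.1
  have hw : w ∈ Set.Icc (0 : V → ℝ) w0 := hx.2
  have hmin : ∀ T' ∈ Set.Icc T0 Tm, ∀ w' ∈ Set.Icc (0 : V → ℝ) w0, PT G T w ≤ PT G T' w' :=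
    fun T' hT' w' hw' => hmin' (T', w') ⟨hT', hw'⟩
  have hmin2 : ∀ w' ∈ Set.Icc (0 : V → ℝ) w0, PT G T w' ≤ PT G T w → ∑ v, w v ≤ ∑ v, w' v :=
    fun w' hw' h => hmin2' (T, w') ⟨hT, hw'⟩ h
  have hneg : PT G T w < 0 := (hmin T1 hT1 w1 hw1).trans_lt hneg1
  have hwn := box_nonneg hw
  have hTpos : 0 < T := hT0.trans_le hT.1
  rcases hT.1.eq_or_lt with hTe | hTlt
  · -- the base threshold
    subst hTe
    exact base w _ (crit_of_min G hT0 hT hw hneg hmin hmin2)
  · have hR' : ∀ T' ∈ Set.Ico T0 T, RT G T' w ≤ 0 := by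
      intro T' hT'
      have hT'pos : 0 < T' := hT0.trans_le hT'.1
      have h1 := hmin T' ⟨hT'.1, hT'.2.le.trans hT.2⟩ w hw
      have h2 := PT_compare G hwn hT'pos hT'.2.le
      have h3 : (aa T' - aa T) * RT G T' w ≤ 0 := by linarith
      have h4 : 0 < aa T' - aa T := by
        have := aa_lt hT'pos hT'.2
        linarith
      by_contra h5
      push Not at h5
      have := mul_pos h4 h5
      linarith
    have hR : RT G T w ≤ 0 := by
      have h1 := (continuousAt_RT G hwn hTpos).tendsto.mono_left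
        (nhdsWithin_le_nhds (s := Set.Iio T))
      refine le_of_tendsto h1 ?_
      filter_upwards [Ico_mem_nhdsLT hTlt] with T' hT'
      exact hR' T' hT'
    have hcrit := crit_of_min G hT0 hT hw hneg hmin hmin2
    have hdef := deficit_of_neg G hTpos hneg hR
    -- box maximiser
    have hK2 : IsCompact (Set.Icc (0 : V → ℝ) w) := isCompact_Icc
    have hcB : ContinuousOn (BT G T) (Set.Icc (0 : V → ℝ) w) := by
      refine (continuousOn_pot G ?_).mono fun x hx => box_nonneg hx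
      have h1 : ContinuousOn (fun L => min L T) (Set.Ici 0) := by fun_prop
      exact ph_continuousOn.comp h1 fun L hL => le_min hL hTpos.le
    obtain ⟨m, hm, hmax⟩ := hK2.exists_isMaxOn ⟨w, fun v => hwn v, le_rfl⟩ hcB
    have hbm : BoxMax G T w m := ⟨fun v => hm.1 v, fun v => hm.2 v,
      fun m' h1 h2 => hmax ⟨fun v => h1 v, fun v => h2 v⟩⟩
    by_cases hhub : ∃ v, 0 < m v ∧ T ≤ Lw G m v
    · exact main T w _ m hTlt hcrit hdef hbm hhub
    · push Not at hhub
      have hmn : ∀ v, 0 ≤ m v := fun v => hm.1 v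
      have h1 : BT G T m = Binf G m := by
        rw [BT, Binf, pot, pot]
        refine sum_congr rfl fun v _ => ?_
        rcases (hmn v).eq_or_lt with h0 | h0
        · rw [← h0]; simp
        · rw [pT, min_eq_left (hhub v h0).le]
      have h2 := Wf_nonneg G hmn
      rw [Wf] at h2
      have h3 : Real.log (Z G m) ≤ Real.log (Z G w) :=
        Real.log_le_log (Z_pos G hmn) (Z_mono G hmn fun v => hm.2 v)
      have h4 : BT G T w ≤ BT G T m := hbm.max w hwn fun _ => le_rfl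
      rw [RT] at hR
      have h5 : Real.log (Z G w) ≤ Real.log (Z G m) := by linarith
      have h6 : Z G w ≤ Z G m :=
        (Real.log_le_log_iff (Z_pos G hwn) (Z_pos G hmn)).1 h5
      have h7 : m = w := Z_strict G hmn (fun v => hm.2 v) h6
      subst h7
      have h8 : Wf G m = 0 := by
        rw [Wf]
        linarith
      have h9 := Wf_eq_zero G hmn h8
      have h11 : ∑ v, m v * qq G m v = ∑ v, m v * gg (min (Lw G m v) T) := by
        refine sum_congr rfl fun v _ => ?_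
        rcases (hmn v).eq_or_lt with h0 | h0
        · rw [← h0]; simp
        · rw [h9 v h0, min_eq_left (hhub v h0).le]
      linarith

/-- **General reduction**: minimise `P_T(w)` over the box and over `T ∈ [T0, Tm]`. -/
theorem PT_nonneg_gen {T0 : ℝ} (hT0 : 0 < T0)
    (base : ∀ w y : V → ℝ, Crit G T0 w y → False)
    (main : ∀ (T : ℝ) (w y : V → ℝ), T0 < T → Crit G T w y → RT G T w ≤ 0 →
      (∑ v, w v * y v < ∑ v, w v * gg (min (Lw G w v) T)) → False)
    {w0 : V → ℝ} {Tm : ℝ} :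
    ∀ T ∈ Set.Icc T0 Tm, ∀ w ∈ Set.Icc (0 : V → ℝ) w0, 0 ≤ PT G T w := by
  by_contra hcon
  push Not at hcon
  obtain ⟨T1, hT1, w1, hw1, hneg1⟩ := hcon
  have hK : IsCompact (Set.Icc T0 Tm ×ˢ Set.Icc (0 : V → ℝ) w0) :=
    isCompact_Icc.prod isCompact_Icc
  have hc : ContinuousOn (fun p : ℝ × (V → ℝ) => PT G p.1 p.2)
      (Set.Icc T0 Tm ×ˢ Set.Icc (0 : V → ℝ) w0) := by
    refine (continuousOn_PT G).mono ?_
    intro p hp
    exact ⟨hT0.trans_le hp.1.1, box_nonneg hp.2⟩
  obtain ⟨⟨T, w⟩, hx, hmin', hmin2'⟩ := exists_min_min hK ⟨(T1, w1), hT1, hw1⟩ hc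
    (s := fun p => ∑ v, p.2 v) (by fun_prop)
  have hT : T ∈ Set.Icc T0 Tm := hx.1
  have hw : w ∈ Set.Icc (0 : V → ℝ) w0 := hx.2
  have hmin : ∀ T' ∈ Set.Icc T0 Tm, ∀ w' ∈ Set.Icc (0 : V → ℝ) w0, PT G T w ≤ PT G T' w' :=
    fun T' hT' w' hw' => hmin' (T', w') ⟨hT', hw'⟩
  have hmin2 : ∀ w' ∈ Set.Icc (0 : V → ℝ) w0, PT G T w' ≤ PT G T w → ∑ v, w v ≤ ∑ v, w' v :=
    fun w' hw' h => hmin2' (T, w') ⟨hT, hw'⟩ h
  have hneg : PT G T w < 0 := (hmin T1 hT1 w1 hw1).trans_lt hneg1
  have hwn := box_nonneg hw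
  have hTpos : 0 < T := hT0.trans_le hT.1
  rcases hT.1.eq_or_lt with hTe | hTlt
  · -- the base threshold
    subst hTe
    exact base w _ (crit_of_min G hT0 hT hw hneg hmin hmin2)
  · have hR' : ∀ T' ∈ Set.Ico T0 T, RT G T' w ≤ 0 := by
      intro T' hT'
      have hT'pos : 0 < T' := hT0.trans_le hT'.1
      have h1 := hmin T' ⟨hT'.1, hT'.2.le.trans hT.2⟩ w hw
      have h2 := PT_compare G hwn hT'pos hT'.2.le
      have h3 : (aa T' - aa T) * RT G T' w ≤ 0 := by linarith
      have h4 : 0 < aa T' - aa T := by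
        have := aa_lt hT'pos hT'.2
        linarith
      by_contra h5
      push Not at h5
      have := mul_pos h4 h5
      linarith
    have hR : RT G T w ≤ 0 := by
      have h1 := (continuousAt_RT G hwn hTpos).tendsto.mono_left
        (nhdsWithin_le_nhds (s := Set.Iio T))
      refine le_of_tendsto h1 ?_
      filter_upwards [Ico_mem_nhdsLT hTlt] with T' hT'
      exact hR' T' hT'
    exact main T w _ hTlt (crit_of_min G hT0 hT hw hneg hmin hmin2) hR
      (deficit_of_neg G hTpos hneg hR)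

/-- The version for a single threshold. -/
theorem PT_nonneg_single {T0 : ℝ} (hT0 : 0 < T0)
    (base : ∀ w y : V → ℝ, Crit G T0 w y → False) {w0 : V → ℝ} :
    ∀ w ∈ Set.Icc (0 : V → ℝ) w0, 0 ≤ PT G T0 w := by
  intro w hw
  by_contra hcon
  push Not at hcon
  obtain ⟨w1, hw1, hmin', hmin2'⟩ := exists_min_min (K := Set.Icc (0 : V → ℝ) w0)
    (f := fun w => PT G T0 w) isCompact_Icc ⟨w, hw⟩
    (by
      have h1 := continuousOn_PT G
      refine h1.comp (t := {p : ℝ × (V → ℝ) | 0 < p.1 ∧ ∀ v, 0 ≤ p.2 v})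
        (f := fun w : V → ℝ => ((T0, w) : ℝ × (V → ℝ))) (by fun_prop) ?_
      intro w hw
      exact ⟨hT0, box_nonneg hw⟩)
    (s := fun w => ∑ v, w v) (by fun_prop)
  refine base w1 _ (crit_of_min G (T0 := T0) (Tm := T0) hT0 ⟨le_rfl, le_rfl⟩ hw1
    ((hmin' w hw).trans_lt hcon) ?_ ?_)
  · intro T' hT' w' hw'
    have : T' = T0 := le_antisymm hT'.2 hT'.1
    subst this
    exact hmin' w' hw'
  · intro w' hw' h
    exact hmin2' w' hw' h

end Pool.Agent.Helper65.HC
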