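import Pool.Agent.Helper65.HC.Final

/-!
# Step 1: `R_T ≤ 0` produces a hub with small `e_u`
-/

namespace Pool.Agent.Helper65.HC

open Finset Classical

universe u

variable {V : Type u} [Fintype V] (G : SimpleGraph V)

/-- the weights with all hubs removed -/
noncomputable def dropHubs (T : ℝ) (w : V → ℝ) : V → ℝ := fun v => if Lw G w v < T then w v else 0

/-- `e_u` -/
noncomputable def ee (T : ℝ) (w : V → ℝ) (v : V) : ℝ :=
  ∑ x ∈ (cn G v).filter (fun x => Lw G w x < T), w x * uu (Lw G w x)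

lemma dropHubs_nonneg {T : ℝ} {w : V → ℝ} (hw : ∀ v, 0 ≤ w v) (v : V) : 0 ≤ dropHubs G T w v := by
  rw [dropHubs]
  split_ifs
  · exact hw v
  · exact le_rfl

lemma dropHubs_le {T : ℝ} {w : V → ℝ} (hw : ∀ v, 0 ≤ w v) (v : V) : dropHubs G T w v ≤ w v := by
  rw [dropHubs]
  split_ifs
  · exact le_rfl
  · exact hw v

/-- weight of the hubs in `N[x]` -/
noncomputable def hh (T : ℝ) (w : V → ℝ) (x : V) : ℝ :=
  ∑ u ∈ (cn G x).filter (fun u => ¬ Lw G w u < T), w u

lemma hh_nonneg {T : ℝ} {w : V → ℝ} (hw : ∀ v, 0 ≤ w v) (x : V) : 0 ≤ hh G T w x :=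
  sum_nonneg fun u _ => hw u

lemma Lw_dropHubs (T : ℝ) (w : V → ℝ) (x : V) :
    Lw G (dropHubs G T w) x = Lw G w x - hh G T w x := by
  have h1 : Lw G w x = (∑ u ∈ (cn G x).filter (fun u => Lw G w u < T), w u) + hh G T w x := by
    rw [Lw, hh, sum_filter_add_sum_filter_not]
  have h2 : Lw G (dropHubs G T w) x = ∑ u ∈ (cn G x).filter (fun u => Lw G w u < T), w u := by
    rw [Lw, sum_filter]
    rfl
  rw [h1, h2]
  ring

/-- **Step 1**, the summed form -/
lemma hub_sum {T : ℝ} {w : V → ℝ} (hw : ∀ v, 0 ≤ w v) :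
    Binf G (dropHubs G T w) ≥ (∑ x ∈ univ.filter (fun x => Lw G w x < T), w x * ph (Lw G w x)) +
      ∑ u ∈ univ.filter (fun u => ¬ Lw G w u < T), w u * ee G T w u := by
  have h1 : Binf G (dropHubs G T w) = ∑ x ∈ univ.filter (fun x => Lw G w x < T),
      w x * ph (Lw G w x - hh G T w x) := by
    rw [Binf, pot, sum_filter]
    refine sum_congr rfl fun x _ => ?_
    rw [Lw_dropHubs]
    by_cases h : Lw G w x < T
    · rw [if_pos h, dropHubs, if_pos h]
    · rw [if_neg h, dropHubs, if_neg h, zero_mul]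
  have h2 : ∑ x ∈ univ.filter (fun x => Lw G w x < T),
      w x * (ph (Lw G w x) + hh G T w x * uu (Lw G w x)) ≤
      ∑ x ∈ univ.filter (fun x => Lw G w x < T), w x * ph (Lw G w x - hh G T w x) := by
    refine sum_le_sum fun x _ => ?_
    rcases (hw x).eq_or_lt with h | h
    · rw [← h]; simp
    · refine mul_le_mul_of_nonneg_left ?_ h.le
      have hL : 0 < Lw G w x := h.trans_le (le_Lw G hw (self_mem_cn G x))
      have h3 := ph_tangent hL (y := Lw G w x - hh G T w x) (by
        have h4 := Lw_dropHubs G T w x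
        have h5 := Lw_nonneg G (dropHubs_nonneg G (T := T) hw) x
        linarith)
      have e : Lw G w x - hh G T w x - Lw G w x = -hh G T w x := by ring
      rw [e] at h3
      linarith
  have h3 : ∑ x ∈ univ.filter (fun x => Lw G w x < T), w x * (hh G T w x * uu (Lw G w x)) =
      ∑ u ∈ univ.filter (fun u => ¬ Lw G w u < T), w u * ee G T w u := by
    unfold hh ee
    simp only [sum_mul, mul_sum]
    rw [Finset.sum_comm' (s' := fun u => (cn G u).filter (fun x => Lw G w x < T))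
      (t' := univ.filter (fun u => ¬ Lw G w u < T))]
    · exact sum_congr rfl fun x _ => sum_congr rfl fun z _ => by ring
    · intro x u
      rw [mem_filter, mem_filter, mem_filter, mem_filter, mem_cn_comm G (v := x) (u := u)]
      simp only [mem_univ, true_and]
      tauto
  rw [h1, ← h3, ← sum_add_distrib]
  refine le_trans (le_of_eq ?_) h2
  exact sum_congr rfl fun x _ => by ring

/-- **Step 1**: some hub has `e_u < φ(T)`. -/
theorem exists_hub {T : ℝ} {w : V → ℝ} (hw : ∀ v, 0 ≤ w v)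
    (hR : RT G T w ≤ 0)
    (hdef : ∑ v, w v * qq G w v < ∑ v, w v * gg (min (Lw G w v) T)) :
    ∃ u, 0 < w u ∧ T ≤ Lw G w u ∧ ee G T w u < ph T := by
  set H := univ.filter (fun u => ¬ Lw G w u < T) with hH
  have hBT : BT G T w = (∑ x ∈ univ.filter (fun x => Lw G w x < T), w x * ph (Lw G w x)) +
      ∑ u ∈ H, w u * ph T := by
    rw [BT, pot, hH, ← sum_filter_add_sum_filter_not univ (fun x => Lw G w x < T)]
    congr 1
    · refine sum_congr rfl fun x hx => ?_
      rw [pT, min_eq_left (mem_filter.1 hx).2.le]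
    · refine sum_congr rfl fun x hx => ?_
      rw [pT, min_eq_right (not_lt.1 (mem_filter.1 hx).2)]
  have hd0 := dropHubs_nonneg G (T := T) hw
  have hdle := dropHubs_le G (T := T) hw
  have h1 := Wf_nonneg G hd0
  rw [Wf] at h1
  have h2 := hub_sum G (T := T) hw
  rw [RT, hBT] at hR
  by_contra hcon
  push Not at hcon
  -- every hub of positive weight has `e_u ≥ φ(T)`
  have h3 : ∑ u ∈ H, w u * ph T ≤ ∑ u ∈ H, w u * ee G T w u := by
    refine sum_le_sum fun u hu => ?_
    rcases (hw u).eq_or_lt with h | h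
    · rw [← h]; simp
    · exact mul_le_mul_of_nonneg_left (hcon u h (not_lt.1 (mem_filter.1 hu).2)) h.le
  have h4 : Real.log (Z G w) ≤ Real.log (Z G (dropHubs G T w)) := by linarith
  have h5 : Z G w ≤ Z G (dropHubs G T w) :=
    (Real.log_le_log_iff (Z_pos G hw) (Z_pos G hd0)).1 h4
  have h6 : dropHubs G T w = w := Z_strict G hd0 hdle h5
  -- so there are no hubs of positive weight
  have h7 : ∀ v, 0 < w v → Lw G w v < T := by
    intro v hv
    by_contra h
    have h8 := congrFun h6 v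
    rw [dropHubs, if_neg h] at h8
    linarith
  have h8 : Wf G w = 0 := by
    rw [h6] at h1
    refine le_antisymm ?_ h1
    have h9 : Binf G w = BT G T w := by
      rw [Binf, BT, pot, pot]
      refine sum_congr rfl fun v _ => ?_
      rcases (hw v).eq_or_lt with h | h
      · rw [← h]; simp
      · rw [pT, min_eq_left (h7 v h).le]
    rw [Wf, h9, hBT]
    exact hR
  have h9 := Wf_eq_zero G hw h8
  have h10 : ∑ v, w v * qq G w v = ∑ v, w v * gg (min (Lw G w v) T) := by
    refine sum_congr rfl fun v _ => ?_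
    rcases (hw v).eq_or_lt with h | h
    · rw [← h]; simp
    · rw [h9 v h, min_eq_left (h7 v h).le]
  linarith

/-- **General reduction with a hub**: `P_T ≥ 0` for `T ≥ T0` follows from the static lemma in the
presence of a hub with `e_u < φ(T)`. -/
theorem PT_nonneg_hub {T0 : ℝ} (hT0 : 0 < T0)
    (base : ∀ w y : V → ℝ, Crit G T0 w y → False)
    (main : ∀ (T : ℝ) (w y : V → ℝ), T0 < T → Crit G T w y →
      (∃ u, 0 < w u ∧ T ≤ Lw G w u ∧ ee G T w u < ph T) → False)
    {w0 : V → ℝ} {Tm : ℝ} :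
    ∀ T ∈ Set.Icc T0 Tm, ∀ w ∈ Set.Icc (0 : V → ℝ) w0, 0 ≤ PT G T w := by
  by_contra hcon
  push Not at hcon
  obtain ⟨T1, hT1, w1, hw1, hneg1⟩ := hcon
  have hK : IsCompact (Set.Icc T0 Tm ×ˢ Set.Icc (0 : V → ℝ) w0) :=
    isCompact_Icc.prod isCompact_Icc
  have hc : ContinuousOn (fun p : ℝ × (V → ℝ) => PT G p.1 p.2)
      (Set.Icc T0 Tm ×ˢ Set.Icc (0 : V → ℝ) w0) := by
    refine (continuousOn_PT G).mono ?_
    intro p hp
    exact ⟨hT0.trans_le hp.1.1, box_nonneg hp.2⟩
  obtain ⟨⟨T, w⟩, hx, hmin', hmin2'⟩ := exists_min_min hK ⟨(T1, w1), hT1, hw1⟩ hc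
    (s := fun p => ∑ v, p.2 v) (by fun_prop)
  have hT : T ∈ Set.Icc T0 Tm := hx.1
  have hw : w ∈ Set.Icc (0 : V → ℝ) w0 := hx.2
  have hmin : ∀ T' ∈ Set.Icc T0 Tm, ∀ w' ∈ Set.Icc (0 : V → ℝ) w0, PT G T w ≤ PT G T' w' :=
    fun T' hT' w' hw' => hmin' (T', w') ⟨hT', hw'⟩
  have hmin2 : ∀ w' ∈ Set.Icc (0 : V → ℝ) w0, PT G T w' ≤ PT G T w → ∑ v, w v ≤ ∑ v, w' v :=
    fun w' hw' h => hmin2' (T, w') ⟨hT, hw'⟩ h
  have hneg : PT G T w < 0 := (hmin T1 hT1 w1 hw1).trans_lt hneg1
  have hwn := box_nonneg hw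
  have hTpos : 0 < T := hT0.trans_le hT.1
  have hcrit := crit_of_min G hT0 hT hw hneg hmin hmin2
  rcases hT.1.eq_or_lt with hTe | hTlt
  · -- the base threshold
    subst hTe
    exact base w _ hcrit
  · have hR' : ∀ T' ∈ Set.Ico T0 T, RT G T' w ≤ 0 := by
      intro T' hT'
      have hT'pos : 0 < T' := hT0.trans_le hT'.1
      have h1 := hmin T' ⟨hT'.1, hT'.2.le.trans hT.2⟩ w hw
      have h2 := PT_compare G hwn hT'pos hT'.2.le
      have h3 : (aa T' - aa T) * RT G T' w ≤ 0 := by linarith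
      have h4 : 0 < aa T' - aa T := by
        have := aa_lt hT'pos hT'.2
        linarith
      by_contra h5
      push Not at h5
      have := mul_pos h4 h5
      linarith
    have hR : RT G T w ≤ 0 := by
      have h1 := (continuousAt_RT G hwn hTpos).tendsto.mono_left
        (nhdsWithin_le_nhds (s := Set.Iio T))
      refine le_of_tendsto h1 ?_
      filter_upwards [Ico_mem_nhdsLT hTlt] with T' hT'
      exact hR' T' hT'
    exact main T w _ hTlt hcrit (exists_hub G hwn hR (deficit_of_neg G hTpos hneg hR))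

/-- the hard-core Caro-Wei inequality from the static lemma with a hub -/
theorem caroWei_of_hub {T0 : ℝ} (hT0 : 0 < T0)
    (base : ∀ w y : V → ℝ, Crit G T0 w y → False)
    (main : ∀ (T : ℝ) (w y : V → ℝ), T0 < T → Crit G T w y →
      (∃ u, 0 < w u ∧ T ≤ Lw G w u ∧ ee G T w u < ph T) → False)
    {w : V → ℝ} (hw : ∀ v, 0 ≤ w v) :
    ∑ v, w v * gg (Lw G w v) ≤ mu G w := by
  obtain ⟨B, hB⟩ := (Set.finite_range (Lw G w)).bddAbove
  have hB' : ∀ v, Lw G w v ≤ max T0 B := fun v => (hB ⟨v, rfl⟩).trans (le_max_right _ _)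
  have h := PT_nonneg_hub G hT0 base main (w0 := w) (Tm := max T0 B) (max T0 B)
    ⟨le_max_left _ _, le_rfl⟩ w ⟨fun v => hw v, le_rfl⟩
  exact F_nonneg_of_PT G (lt_max_of_lt_left hT0) hw hB' h

end Pool.Agent.Helper65.HC
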